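import Pool.Agent.Helper43.LS.Chk

/-!
# Project LB: soundness of the checker, general lemmas (from the module LS-6 by helper97)
-/

set_option autoImplicit false

namespace Pool.LB

open Pool.LS

/-! ### Booleans -/

theorem bif_true {c a b : Bool} :
    (bif c then a else b) = true ↔ (c = true → a = true) ∧ (c = false → b = true) := by
  cases c <;> simp

theorem ble_true {a b : ℕ} : Nat.ble a b = true ↔ a ≤ b := by rw [Nat.ble_eq]

theorem ble_false {a b : ℕ} : Nat.ble a b = false ↔ b < a := by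
  rw [← Bool.not_eq_true, ble_true]; omega

theorem blt_true {a b : ℕ} : Nat.blt a b = true ↔ a < b := by rw [Nat.blt_eq]

theorem blt_false {a b : ℕ} : Nat.blt a b = false ↔ b ≤ a := by
  rw [← Bool.not_eq_true, blt_true]; omega

theorem nbeq_true {a b : ℕ} : Nat.beq a b = true ↔ a = b := by rw [Nat.beq_eq]

theorem nbeq_false {a b : ℕ} : Nat.beq a b = false ↔ a ≠ b := by
  rw [← Bool.not_eq_true, nbeq_true]

theorem allN_true {n : ℕ} {f : ℕ → Bool} : allN n f = true ↔ ∀ i < n, f i = true := by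
  induction n with
  | zero => simp [allN]
  | succ n ih =>
    rw [allN, Bool.and_eq_true, ih]
    constructor
    · rintro ⟨h1, h2⟩ i hi
      rcases Nat.lt_succ_iff_lt_or_eq.mp hi with h | h
      · exact h2 i h
      · rw [h]; exact h1
    · intro h
      exact ⟨h n (Nat.lt_succ_self n), fun i hi => h i (Nat.lt_succ_of_lt hi)⟩

theorem redB_iff (e1 e2 e3 e4 e5 : ℕ) :
    redB e1 e2 e3 e4 e5 = true ↔ Red 2 2 ⟨e1, e2, e3, e4, e5⟩ := by
  unfold redB Red
  rw [Bool.and_eq_true, Bool.and_eq_true, Bool.or_eq_true, Bool.or_eq_true, ble_true, ble_true,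
    ble_true, ble_true, ble_true]
  constructor
  · rintro ⟨⟨h1, h2⟩, h3⟩
    refine ⟨h1, ?_, ?_⟩
    · rcases h2 with h | h
      · exact Or.inl (by show e1 < 2; omega)
      · exact Or.inr (by show e3 < 3 * 2; omega)
    · rcases h3 with h | h
      · exact Or.inl (by show e2 < 5 * 2; omega)
      · exact Or.inr (by show e5 < 2; omega)
  · rintro ⟨h1, h2, h3⟩
    refine ⟨⟨h1, ?_⟩, ?_⟩
    · rcases h2 with h | h
      · exact Or.inl (by change e1 < 2 at h; omega)
      · exact Or.inr (by change e3 < 3 * 2 at h; omega)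
    · rcases h3 with h | h
      · exact Or.inl (by change e2 < 5 * 2 at h; omega)
      · exact Or.inr (by change e5 < 2 at h; omega)

/-! ### Predecessors -/

theorem p1_iff (C : ℕ → ℕ → ℕ → ℕ → ℕ → ℕ) (e : Mon) :
    p1B C e.e1 e.e2 e.e3 e.e4 e.e5 = true ↔ Pred (moOf C) 1 e := by
  unfold p1B Pred
  rw [Bool.and_eq_true, Bool.and_eq_true, redB_iff, ble_true, nbeq_true]
  constructor
  · rintro ⟨⟨h1, h2⟩, h3⟩
    exact ⟨_, by simp only [mvB]; rw [if_pos h1], h2, h3⟩
  · rintro ⟨g, h1, h2, h3⟩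
    simp only [mvB] at h1
    by_cases hc : 1 ≤ e.e2
    · rw [if_pos hc] at h1
      injection h1 with h1
      subst h1
      exact ⟨⟨hc, h2⟩, h3⟩
    · rw [if_neg hc] at h1
      cases h1

theorem p2_iff (C : ℕ → ℕ → ℕ → ℕ → ℕ → ℕ) (e : Mon) :
    p2B C e.e1 e.e2 e.e3 e.e4 e.e5 = true ↔ Pred (moOf C) 2 e := by
  unfold p2B Pred
  rw [Bool.and_eq_true, Bool.and_eq_true, redB_iff, ble_true, nbeq_true]
  constructor
  · rintro ⟨⟨h1, h2⟩, h3⟩
    exact ⟨_, by simp only [mvB]; rw [if_pos h1], h2, h3⟩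
  · rintro ⟨g, h1, h2, h3⟩
    simp only [mvB] at h1
    by_cases hc : 1 ≤ e.e3
    · rw [if_pos hc] at h1
      injection h1 with h1
      subst h1
      exact ⟨⟨hc, h2⟩, h3⟩
    · rw [if_neg hc] at h1
      cases h1

theorem p3_iff (C : ℕ → ℕ → ℕ → ℕ → ℕ → ℕ) (e : Mon) :
    p3B C e.e1 e.e2 e.e3 e.e4 e.e5 = true ↔ Pred (moOf C) 3 e := by
  unfold p3B Pred
  rw [Bool.and_eq_true, Bool.and_eq_true, redB_iff, ble_true, nbeq_true]
  constructor
  · rintro ⟨⟨h1, h2⟩, h3⟩
    exact ⟨_, by simp only [mvB]; rw [if_pos h1], h2, h3⟩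
  · rintro ⟨g, h1, h2, h3⟩
    simp only [mvB] at h1
    by_cases hc : 1 ≤ e.e4
    · rw [if_pos hc] at h1
      injection h1 with h1
      subst h1
      exact ⟨⟨hc, h2⟩, h3⟩
    · rw [if_neg hc] at h1
      cases h1

theorem p4_iff (C : ℕ → ℕ → ℕ → ℕ → ℕ → ℕ) (e : Mon) :
    p4B C e.e1 e.e2 e.e3 e.e4 e.e5 = true ↔ Pred (moOf C) 4 e := by
  unfold p4B Pred
  rw [Bool.and_eq_true, Bool.and_eq_true, redB_iff, ble_true, nbeq_true]
  constructor
  · rintro ⟨⟨h1, h2⟩, h3⟩
    exact ⟨_, by simp only [mvB]; rw [if_pos h1], h2, h3⟩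
  · rintro ⟨g, h1, h2, h3⟩
    simp only [mvB] at h1
    by_cases hc : 1 ≤ e.e5
    · rw [if_pos hc] at h1
      injection h1 with h1
      subst h1
      exact ⟨⟨hc, h2⟩, h3⟩
    · rw [if_neg hc] at h1
      cases h1

/-- only the moves `1, 2, 3, 4` have predecessors -/
theorem pred_cases {mo : Mon → ℕ} {k : ℕ} {e : Mon} (h : Pred mo k e) :
    (k = 1 ∧ Pred mo 1 e) ∨ (k = 2 ∧ Pred mo 2 e) ∨ (k = 3 ∧ Pred mo 3 e) ∨
      (k = 4 ∧ Pred mo 4 e) := by
  match k, h with
  | 0, h => obtain ⟨g, hg, _⟩ := h; cases hg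
  | 1, h => exact Or.inl ⟨rfl, h⟩
  | 2, h => exact Or.inr (Or.inl ⟨rfl, h⟩)
  | 3, h => exact Or.inr (Or.inr (Or.inl ⟨rfl, h⟩))
  | 4, h => exact Or.inr (Or.inr (Or.inr ⟨rfl, h⟩))
  | n + 5, h => obtain ⟨g, hg, _⟩ := h; cases hg

theorem one4_ex {a b c d : Bool} (h : one4 a b c d = true) :
    a = true ∨ b = true ∨ c = true ∨ d = true := by
  revert h; cases a <;> cases b <;> cases c <;> cases d <;> simp [one4]

theorem one4_12 {a b c d : Bool} (h : one4 a b c d = true) : ¬ (a = true ∧ b = true) := by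
  revert h; cases a <;> cases b <;> cases c <;> cases d <;> simp [one4]
theorem one4_13 {a b c d : Bool} (h : one4 a b c d = true) : ¬ (a = true ∧ c = true) := by
  revert h; cases a <;> cases b <;> cases c <;> cases d <;> simp [one4]
theorem one4_14 {a b c d : Bool} (h : one4 a b c d = true) : ¬ (a = true ∧ d = true) := by
  revert h; cases a <;> cases b <;> cases c <;> cases d <;> simp [one4]
theorem one4_23 {a b c d : Bool} (h : one4 a b c d = true) : ¬ (b = true ∧ c = true) := by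
  revert h; cases a <;> cases b <;> cases c <;> cases d <;> simp [one4]
theorem one4_24 {a b c d : Bool} (h : one4 a b c d = true) : ¬ (b = true ∧ d = true) := by
  revert h; cases a <;> cases b <;> cases c <;> cases d <;> simp [one4]
theorem one4_34 {a b c d : Bool} (h : one4 a b c d = true) : ¬ (c = true ∧ d = true) := by
  revert h; cases a <;> cases b <;> cases c <;> cases d <;> simp [one4]

theorem cod_eq (T W V : List ℕ) (e : Mon) :
    cod T W V e.e1 e.e2 e.e3 e.e4 e.e5 =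
      look T W V (ka e).e1 (ka e).e2 (ka e).e3 (ka e).e4 (ka e).e5 := by
  unfold cod ka
  simp only
  split_ifs with h1 h2
  · rw [ble_true.mpr h1]; rfl
  · rw [ble_false.mpr (Nat.lt_of_not_le h1), ble_true.mpr h2]; rfl
  · rw [ble_false.mpr (Nat.lt_of_not_le h1), ble_false.mpr (Nat.lt_of_not_le h2)]; rfl

end Pool.LB
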