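import Pool.Agent.Helper43.LB.Loc

/-!
# Project LB: local conditions everywhere imply `GoodBC`
-/

set_option autoImplicit false

namespace Pool.LB

open Pool.LS

theorem mv_of_mvF {k : ℕ} {e f : Mon} (h : mvF k e = some f) : Mv k e f := by
  unfold mvF at h
  split at h
  · split_ifs at h with h1
    simp only [Option.some.injEq] at h
    subst h
    exact Or.inl ⟨rfl, by dsimp only; omega, rfl, rfl, rfl, rfl⟩
  · split_ifs at h with h1
    simp only [Option.some.injEq] at h
    subst h
    exact Or.inr (Or.inl ⟨rfl, rfl, by dsimp only; omega, rfl, rfl, rfl⟩)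
  · split_ifs at h with h1
    simp only [Option.some.injEq] at h
    subst h
    exact Or.inr (Or.inr (Or.inl ⟨rfl, rfl, rfl, by dsimp only; omega, rfl, rfl⟩))
  · split_ifs at h with h1
    simp only [Option.some.injEq] at h
    subst h
    exact Or.inr (Or.inr (Or.inr ⟨rfl, rfl, rfl, rfl, by dsimp only; omega, rfl⟩))
  · simp at h

theorem mvB_of_mv {k : ℕ} {e f : Mon} (h : Mv k e f) : mvB k f = some e := by
  obtain ⟨a1, a2, a3, a4, a5⟩ := e
  obtain ⟨b1, b2, b3, b4, b5⟩ := f
  unfold Mv at h
  dsimp only at h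
  rcases h with ⟨rfl, h1, h2, h3, h4, h5⟩ | ⟨rfl, h1, h2, h3, h4, h5⟩ |
    ⟨rfl, h1, h2, h3, h4, h5⟩ | ⟨rfl, h1, h2, h3, h4, h5⟩
  all_goals
    simp only [mvB]
    rw [if_pos (by omega)]
    simp only [Option.some.injEq, Mon.mk.injEq]
    refine ⟨?_, ?_, ?_, ?_, ?_⟩ <;> omega

theorem mv_of_mvB {k : ℕ} {e f : Mon} (h : mvB k f = some e) : Mv k e f := by
  unfold mvB at h
  split at h
  · split_ifs at h with h1
    simp only [Option.some.injEq] at h
    subst h
    exact Or.inl ⟨rfl, rfl, by dsimp only; omega, rfl, rfl, rfl⟩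
  · split_ifs at h with h1
    simp only [Option.some.injEq] at h
    subst h
    exact Or.inr (Or.inl ⟨rfl, rfl, rfl, by dsimp only; omega, rfl, rfl⟩)
  · split_ifs at h with h1
    simp only [Option.some.injEq] at h
    subst h
    exact Or.inr (Or.inr (Or.inl ⟨rfl, rfl, rfl, rfl, by dsimp only; omega, rfl⟩))
  · split_ifs at h with h1
    simp only [Option.some.injEq] at h
    subst h
    exact Or.inr (Or.inr (Or.inr ⟨rfl, rfl, rfl, rfl, rfl, by dsimp only; omega⟩))
  · simp at h

theorem deg_mv {k : ℕ} {e f : Mon} (h : Mv k e f) : deg f = deg e := by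
  unfold Mv at h
  unfold deg
  omega

theorem mv_ne_zero {k : ℕ} {e f : Mon} (h : Mv k e f) : k ≠ 0 := by
  unfold Mv at h
  omega

theorem d2_eq (e : Mon) : d2 e = (up e : ℤ) - (dn e : ℤ) := by
  unfold d2 up dn
  push_cast
  ring

theorem redx1 {t : Mon} (h : Red 2 2 (x1 t)) : Red 2 2 t := by
  unfold Red x1 at *
  dsimp only at h
  omega

theorem redx34 {t : Mon} (h : Red 2 2 (x34 t)) : Red 2 2 t := by
  unfold Red x34 at *
  dsimp only at h
  omega

theorem toC_iff {lab : Mon → LLab} {e : Mon} {j : ℕ} :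
    toLb lab e = .C j ↔ lab e = .C j := by
  unfold toLb
  cases hl : lab e <;> simp

/-- The bottoms. -/
theorem bt_iff {lab : Mon → LLab} {e : Mon} (hr : rangeN (lab e) e) :
    Bt (toLb lab) e ↔ (isBotA (lab e) e ∨ lab e = .C 0) := by
  have hd := d2_eq e
  unfold Bt toLb
  cases hl : lab e with
  | A o =>
    simp only [isBotA, Lb.A.injEq, reduceCtorEq, or_false, false_or]
    constructor
    · rintro ⟨o', h1, h2⟩
      subst h1
      omega
    · intro h1
      exact ⟨o, rfl, by omega⟩
  | L c =>
    rw [hl] at hr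
    simp only [rangeN] at hr
    obtain ⟨hr1, hr2⟩ := hr
    simp only [isBotA, Lb.A.injEq, reduceCtorEq, or_false, false_or]
    constructor
    · rintro ⟨o', h1, h2⟩
      subst h1
      omega
    · intro h1
      exact ⟨_, rfl, by omega⟩
  | B j =>
    simp only [isBotA, reduceCtorEq, false_and, exists_false, or_false]
  | C j =>
    simp only [isBotA, Lb.C.injEq, LLab.C.injEq, reduceCtorEq, false_and, exists_false,
      or_false, false_or]

/-- The tops of the caps. -/
theorem tpC_iff {lab : Mon → LLab} {e : Mon} (hr : rangeN (lab e) e) :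
    TpC (toLb lab) e ↔ (isTopA (lab e) e ∨ lab e = .B 6) := by
  have hd := d2_eq e
  unfold TpC toLb
  cases hl : lab e with
  | A o =>
    simp only [isTopA, Lb.A.injEq, reduceCtorEq, or_false, false_or]
    constructor
    · rintro ⟨o', h1, h2⟩
      subst h1
      omega
    · intro h1
      exact ⟨o, rfl, by omega⟩
  | L c =>
    rw [hl] at hr
    simp only [rangeN] at hr
    obtain ⟨hr1, hr2⟩ := hr
    simp only [isTopA, Lb.A.injEq, reduceCtorEq, or_false, false_or]
    constructor
    · rintro ⟨o', h1, h2⟩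
      subst h1
      omega
    · intro h1
      exact ⟨_, rfl, by omega⟩
  | B j =>
    simp only [isTopA, Lb.B.injEq, LLab.B.injEq, reduceCtorEq, false_and, exists_false,
      or_false, false_or]
    omega
  | C j =>
    simp only [isTopA, reduceCtorEq, false_and, exists_false, or_false]

theorem off_of {lab : Mon → LLab} {e : Mon} {j : ℕ} (hr : rangeN (lab e) e)
    (h : OffN (lab e) e j) : Off (toLb lab e) e ((j : ℤ) - 2) := by
  have hd := d2_eq e
  unfold Off toLb
  cases hl : lab e with
  | A o =>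
    rw [hl] at h
    simp only [OffN] at h
    exact Or.inr ⟨o, rfl, by omega⟩
  | L c =>
    rw [hl] at hr h
    simp only [rangeN] at hr
    simp only [OffN] at h
    exact Or.inr ⟨deg e + 2 - c, rfl, by omega⟩
  | B k =>
    rw [hl] at h
    simp only [OffN] at h
    left
    simp only [Lb.B.injEq]
    omega
  | C k =>
    rw [hl] at h
    exact absurd h (by simp [OffN])

theorem toLb_next {lab : Mon → LLab} {e f : Mon} (hd : deg f = deg e)
    (h : lab f = (lab e).next) : toLb lab f = (toLb lab e).next := by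
  unfold toLb
  rw [h, hd]
  cases hl : lab e <;> simp [LLab.next, Lb.next]
  omega

theorem pred_of_mv {mo : Mon → ℕ} {e f : Mon} (he : Red 2 2 e) (h : Mv (mo e) e f) :
    Pred mo (mo e) f :=
  ⟨e, mvB_of_mv h, he, rfl⟩

theorem st_iff {lab : Mon → LLab} {mo : Mon → ℕ} {f : Mon} (hf : Red 2 2 f) :
    St 2 2 (toLb lab) mo f ↔ IsSt lab mo f := by
  unfold St IsSt TpB IsTp
  constructor
  · rintro ⟨t, h1, -, h2, h3⟩
    exact ⟨t, h1, h2, fun h => h3 (toC_iff.2 h)⟩
  · rintro ⟨t, h1, h2, h3⟩
    exact ⟨t, h1, redx1 (h1 ▸ hf), h2, fun h => h3 (toC_iff.1 h)⟩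

theorem goodBC_of_loc (lab : Mon → LLab) (mo : Mon → ℕ) (labC : Mon → LLab) (moC : Mon → ℕ)
    (h : ∀ e, Red 2 2 e → LocB lab mo labC e) (hC : ∀ e, Red 2 2 e → LocC lab mo labC moC e) :
    GoodBC 2 2 (toLb lab) mo (toLb labC) moC where
  step := by
    intro e he hm
    obtain ⟨f, hf, hR, hl, -⟩ := (h e he).step hm
    have hM := mv_of_mvF hf
    exact ⟨f, hR, hM, toLb_next (deg_mv hM) hl⟩
  endC := by
    intro e he hl
    rw [toC_iff] at hl
    by_contra hm
    obtain ⟨f, -, -, -, h1⟩ := (h e he).step hm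
    exact h1 hl
  inj := by
    intro e e' f he he' hf hm hm' hM hM'
    have hk := (h f hf).predU _ _ (pred_of_mv he hM) (pred_of_mv he' hM')
    have h1 := mvB_of_mv hM
    have h2 := mvB_of_mv hM'
    rw [hk, h2] at h1
    simp only [Option.some.injEq] at h1
    exact h1.symm
  start := by
    intro f hf
    have hL := h f hf
    rw [bt_iff hL.range, st_iff hf, or_assoc]
    constructor
    · rintro ⟨e, he, hm, hM⟩ hs
      exact hL.start hs _ (pred_of_mv he hM)
    · intro hs
      obtain ⟨k, g, hg, hR, hk⟩ := hL.pred hs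
      have hM := mv_of_mvB hg
      refine ⟨g, hR, ?_, ?_⟩
      · rw [hk]
        exact mv_ne_zero hM
      · rw [hk]
        exact hM
  top := by
    intro t ht hT
    have hL := h t ht
    obtain ⟨h1, j, -, h3, h4, h5⟩ := hL.top ⟨hT.1, fun hh => hT.2 (toC_iff.2 hh)⟩
    refine ⟨h1, (j : ℤ) - 2, off_of hL.range h3, ?_, ?_⟩
    · unfold toLb
      rw [h4]
      simp only [Lb.B.injEq]
      omega
    · unfold toLb
      rw [h5]
      simp only [Lb.B.injEq]
      omega
  bot := by
    intro u hu hB
    have hL := h u hu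
    rw [bt_iff hL.range] at hB
    rw [toC_iff]
    exact hL.bot hB
  botOf := by
    intro e he hC
    rw [toC_iff] at hC
    obtain ⟨u, rfl, hU⟩ := (h e he).botOf hC
    refine ⟨u, rfl, ?_⟩
    rw [bt_iff (h u (redx34 he)).range]
    exact hU
  stepC := by
    intro e he hm
    obtain ⟨f, hf, hR, hl, -⟩ := (hC e he).step hm
    have hM := mv_of_mvF hf
    exact ⟨f, hR, hM, toLb_next (deg_mv hM) hl⟩
  stopC := by
    intro e he
    have hL := hC e he
    rw [tpC_iff hL.range, toC_iff]
    constructor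
    · intro hm
      have := hL.stop hm
      tauto
    · intro hx
      by_contra hm
      obtain ⟨f, -, -, -, h1, h2, h3⟩ := hL.step hm
      tauto
  injC := by
    intro e e' f he he' hf hm hm' hM hM'
    have hk := (hC f hf).predU _ _ (pred_of_mv he hM) (pred_of_mv he' hM')
    have h1 := mvB_of_mv hM
    have h2 := mvB_of_mv hM'
    rw [hk, h2] at h1
    simp only [Option.some.injEq] at h1
    exact h1.symm
  startC := by
    intro f hf
    have hL := hC f hf
    rw [bt_iff hL.range, st_iff hf, or_assoc]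
    constructor
    · rintro ⟨e, he, hm, hM⟩ hs
      exact hL.start hs _ (pred_of_mv he hM)
    · intro hs
      obtain ⟨k, g, hg, hR, hk⟩ := hL.pred hs
      have hM := mv_of_mvB hg
      refine ⟨g, hR, ?_, ?_⟩
      · rw [hk]
        exact mv_ne_zero hM
      · rw [hk]
        exact hM
  botC := by
    intro u hu hB
    have hL := hC u hu
    rw [bt_iff hL.range] at hB
    rw [toC_iff]
    exact hL.bot hB
  botOfC := by
    intro e he hC'
    rw [toC_iff] at hC'
    obtain ⟨u, rfl, hU⟩ := (hC e he).botOf hC'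
    refine ⟨u, rfl, ?_⟩
    rw [bt_iff (hC u (redx34 he)).range]
    exact hU

end Pool.LB
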