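import Pool.Agent.Helper43.LB.Sound
import Pool.Agent.Helper43.LB.GoodOf
import Pool.Agent.Helper43.LS.InvKa

/-!
# Project LB: assembly
-/

set_option autoImplicit false

namespace Pool.LB

open Pool.LS

theorem rows_sound2 (C D : ℕ → ℕ → ℕ → ℕ → ℕ → ℕ)
    (h : ∀ e5 < 38, chkRow2 C D (67) e5 = true) :
    ∀ e, Red 2 2 e → InOm e → AllOK (labK C) (moOf C) (labK D) (moOf D) e := by
  intro e hr ho
  apply chk2_sound
  obtain ⟨e1, e2, e3, e4, e5⟩ := e
  obtain ⟨r1, r2, r3⟩ := hr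
  obtain ⟨o1, o2, o3, o4, o5⟩ := ho
  simp only at r1 r2 r3 o1 o2 o3 o4 o5 ⊢
  have b5 : e5 < 38 := by omega
  have b1 : e1 < 67 := by omega
  have hrow := h e5 b5
  unfold chkRow2 at hrow
  rw [allN_true] at hrow
  have hrow := hrow e1 b1
  rw [bif_true] at hrow
  have hpair : pairB e1 e5 = true := by
    unfold pairB
    rw [Bool.and_eq_true, Bool.and_eq_true, Bool.not_eq_true', ← Bool.not_eq_true,
      Bool.and_eq_true, blt_true, blt_true, ble_true, ble_true]
    exact ⟨⟨by omega, by omega⟩, o5⟩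
  have hrow := hrow.1 hpair
  rw [allN_true] at hrow
  have hrow := hrow e2 (by
    rcases Nat.lt_or_ge 1 e5 with k | k
    · rw [ble_false.mpr k]; change e2 < 10; omega
    · rw [ble_true.mpr k]; change e2 < 17; omega)
  rw [allN_true] at hrow
  have hrow := hrow e3 (by
    rcases Nat.lt_or_ge 1 e1 with k | k
    · rw [ble_false.mpr k]; change e3 < 6; omega
    · rw [ble_true.mpr k]; change e3 < 15; omega)
  rw [bif_true] at hrow
  have hom : omB e1 e2 e3 e5 = true := by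
    unfold omB
    rw [Bool.and_eq_true, blt_true, blt_true]
    exact ⟨by omega, by omega⟩
  have hrow := hrow.1 hom
  rw [Bool.and_eq_true] at hrow
  have h4 : e4 = 0 ∨ e4 = 1 := by omega
  rcases h4 with k | k
  · rw [k]; exact hrow.1
  · rw [k]; exact hrow.2

/-- the states -/
theorem inv_cod (T T' W V : List ℕ) :
    Inv (fun e => (labK (cod T W V) e, moOf (cod T W V) e, labK (cod T' W V) e,
      moOf (cod T' W V) e)) := by
  have h := inv_ka (fun r : Mon => (decN (look T W V r.e1 r.e2 r.e3 r.e4 r.e5 / 8),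
    look T W V r.e1 r.e2 r.e3 r.e4 r.e5 % 8, decN (look T' W V r.e1 r.e2 r.e3 r.e4 r.e5 / 8),
    look T' W V r.e1 r.e2 r.e3 r.e4 r.e5 % 8))
  have he : (fun e => (labK (cod T W V) e, moOf (cod T W V) e, labK (cod T' W V) e,
      moOf (cod T' W V) e)) = fun e =>
      (fun r : Mon => (decN (look T W V r.e1 r.e2 r.e3 r.e4 r.e5 / 8),
        look T W V r.e1 r.e2 r.e3 r.e4 r.e5 % 8, decN (look T' W V r.e1 r.e2 r.e3 r.e4 r.e5 / 8),
        look T' W V r.e1 r.e2 r.e3 r.e4 r.e5 % 8)) (ka e) := by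
    funext e
    show (decN (cod T W V e.e1 e.e2 e.e3 e.e4 e.e5 / 8),
      cod T W V e.e1 e.e2 e.e3 e.e4 e.e5 % 8, decN (cod T' W V e.e1 e.e2 e.e3 e.e4 e.e5 / 8),
      cod T' W V e.e1 e.e2 e.e3 e.e4 e.e5 % 8) = _
    rw [cod_eq, cod_eq]
  rw [he]
  exact h

/-- `L(5,n)` is a symmetric chain order. -/
theorem sco_of_rows2 (T T' W V : List ℕ)
    (h : ∀ e5 < 38, chkRow2 (cod T W V) (cod T' W V) 67 e5 = true) (n : ℕ) : SCO 5 n := by
  have hA := all_of_window (labK (cod T W V)) (moOf (cod T W V)) (labK (cod T' W V))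
    (moOf (cod T' W V)) (inv_cod T T' W V) (rows_sound2 _ _ h)
  exact sco_of_goodBC 2 2 (by decide) (by decide) _ _ _ _
    (goodBC_of_loc _ _ _ _ (fun e hr => (hA e hr).1.1) (fun e hr => (hA e hr).1.2)) n

end Pool.LB
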