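import Pool.Agent.Helper43.LB.Reduce2
import Pool.Agent.Helper43.LS.Per

/-!
# Project LB: local conditions

Labels: `B j` stands for `q = j - 6` (so the exact chains `B` have the labels `B 2, …, B 6`).
-/

set_option autoImplicit false

namespace Pool.LB

open Pool.LS

/-- `e` is a top of the bulk. -/
def IsTp (lab : Mon → LLab) (mo : Mon → ℕ) (e : Mon) : Prop := mo e = 0 ∧ lab e ≠ .C 5

/-- `e` is the beginning of a chain `B`. -/
def IsSt (lab : Mon → LLab) (mo : Mon → ℕ) (e : Mon) : Prop := ∃ t, e = x1 t ∧ IsTp lab mo t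

/-- The top `e` with the label `l` has the offset `j - 2`. -/
def OffN (l : LLab) (e : Mon) (j : ℕ) : Prop :=
  match l with
  | .A o => up e + 4 = dn e + o + 2 * j
  | .L c => j = 2 ∧ up e + c = dn e + deg e + 2
  | .B k => k = j + 4
  | .C _ => False

/-- The bounds of the labels. -/
def rangeN (l : LLab) (e : Mon) : Prop :=
  match l with
  | .A _ => True
  | .L c => dn e + c ≤ up e + deg e + 2 ∧ up e + c ≤ dn e + deg e + 2
  | .B j => j ≤ 8
  | .C j => j ≤ 5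

/-- The local conditions of the bulk at `e`. -/
structure LocB (lab : Mon → LLab) (mo : Mon → ℕ) (labC : Mon → LLab) (e : Mon) : Prop where
  range : rangeN (lab e) e
  step : mo e ≠ 0 → ∃ f, mvF (mo e) e = some f ∧ Red 2 2 f ∧ lab f = (lab e).next ∧ lab e ≠ .C 5
  pred : ¬ (isBotA (lab e) e ∨ lab e = .C 0 ∨ IsSt lab mo e) → ∃ k, Pred mo k e
  predU : ∀ k k', Pred mo k e → Pred mo k' e → k = k'
  start : (isBotA (lab e) e ∨ lab e = .C 0 ∨ IsSt lab mo e) → ∀ k, ¬ Pred mo k e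
  top : IsTp lab mo e → Red 2 2 (x1 e) ∧
    ∃ j, j ≤ 4 ∧ OffN (lab e) e j ∧ lab (x1 e) = .B j ∧ labC (x1 e) = .B j
  bot : (isBotA (lab e) e ∨ lab e = .C 0) → e.e4 = 0 ∧ Red 2 2 (x34 e) ∧ lab (x34 e) = .C 5
  botOf : lab e = .C 5 → ∃ u, e = x34 u ∧ (isBotA (lab u) u ∨ lab u = .C 0)

/-- The local conditions of the cap at `e`. -/
structure LocC (lab : Mon → LLab) (mo : Mon → ℕ) (labC : Mon → LLab) (moC : Mon → ℕ) (e : Mon) :
    Prop where
  range : rangeN (labC e) e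
  step : moC e ≠ 0 → ∃ f, mvF (moC e) e = some f ∧ Red 2 2 f ∧ labC f = (labC e).next ∧
    ¬ isTopA (labC e) e ∧ labC e ≠ .B 6 ∧ labC e ≠ .C 5
  stop : moC e = 0 → isTopA (labC e) e ∨ labC e = .B 6 ∨ labC e = .C 5
  pred : ¬ (isBotA (labC e) e ∨ labC e = .C 0 ∨ IsSt lab mo e) → ∃ k, Pred moC k e
  predU : ∀ k k', Pred moC k e → Pred moC k' e → k = k'
  start : (isBotA (labC e) e ∨ labC e = .C 0 ∨ IsSt lab mo e) → ∀ k, ¬ Pred moC k e
  bot : (isBotA (labC e) e ∨ labC e = .C 0) → e.e4 = 0 ∧ Red 2 2 (x34 e) ∧ labC (x34 e) = .C 5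
  botOf : labC e = .C 5 → ∃ u, e = x34 u ∧ (isBotA (labC u) u ∨ labC u = .C 0)

/-- Conversion of the labels. -/
def toLb (lab : Mon → LLab) (e : Mon) : Lb :=
  match lab e with
  | .A o => .A o
  | .L c => .A (deg e + 2 - c)
  | .B j => .B ((j : ℤ) - 6)
  | .C j => .C j

end Pool.LB
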