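import Pool.Agent.Helper43.LS.Chk
import Pool.Agent.Helper43.LB.Loc

/-!
# Project LB: the checker

The label of a code `k` is `decN (k / 8)`, its move is `k % 8`. Labels: `A l` (`l < 32`),
`L (l - 32)` (`l < 48`), `B (l - 48)` (`l < 57`), `C (l - 57)`.
-/

set_option autoImplicit false

namespace Pool.LB

open Pool.LS

/-- the label with number `l` -/
def decN (l : ℕ) : LLab :=
  bif Nat.blt l 32 then .A l else bif Nat.blt l 48 then .L (l - 32)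
  else bif Nat.blt l 57 then .B (l - 48) else .C (l - 57)

/-- the label given by the code function -/
def labK (C : ℕ → ℕ → ℕ → ℕ → ℕ → ℕ) (e : Mon) : LLab :=
  decN (C e.e1 e.e2 e.e3 e.e4 e.e5 / 8)

/-- `e` is a beginning of a chain `B` -/
def stB (C : ℕ → ℕ → ℕ → ℕ → ℕ → ℕ) (e1 e2 e3 e4 e5 : ℕ) : Bool :=
  Nat.ble 1 e1 && Nat.beq (C (e1 - 1) e2 e3 e4 e5 % 8) 0 &&
    !Nat.beq (C (e1 - 1) e2 e3 e4 e5 / 8) 62

/-- `rangeN` -/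
def rangeNB (l e1 e2 e3 e4 e5 : ℕ) : Bool :=
  bif Nat.blt l 32 then true
  else bif Nat.blt l 48 then
    Nat.ble (3 * e1 + e2 + (l - 32)) (e1 + e2 + 2 * e3 + 4 * e4 + 6 * e5 + 2) &&
      Nat.ble (e3 + 3 * e4 + 5 * e5 + (l - 32)) (4 * e1 + 2 * e2 + e3 + e4 + e5 + 2)
  else Nat.blt l 63

/-- `OffN` with `j = k - 48` -/
def offB (l k e1 e2 e3 e4 e5 : ℕ) : Bool :=
  bif Nat.blt l 32 then
    Nat.beq (e3 + 3 * e4 + 5 * e5 + 4) (3 * e1 + e2 + l + 2 * (k - 48))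
  else bif Nat.blt l 48 then
    Nat.beq k 50 &&
      Nat.beq (e3 + 3 * e4 + 5 * e5 + (l - 32)) (4 * e1 + 2 * e2 + e3 + e4 + e5 + 2)
  else Nat.blt l 57 && Nat.beq l (k + 4)

/-- exactly one predecessor, or none if `b` -/
def predsB (C : ℕ → ℕ → ℕ → ℕ → ℕ → ℕ) (b : Bool) (e1 e2 e3 e4 e5 : ℕ) : Bool :=
  bif b then
    !p1B C e1 e2 e3 e4 e5 && !p2B C e1 e2 e3 e4 e5 && !p3B C e1 e2 e3 e4 e5 &&
      !p4B C e1 e2 e3 e4 e5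
  else one4 (p1B C e1 e2 e3 e4 e5) (p2B C e1 e2 e3 e4 e5) (p3B C e1 e2 e3 e4 e5)
    (p4B C e1 e2 e3 e4 e5)

/-- the bottoms -/
def botsB (C : ℕ → ℕ → ℕ → ℕ → ℕ → ℕ) (l e1 e2 e3 e4 e5 : ℕ) : Bool :=
  (bif botAB l e1 e2 e3 e4 e5 || Nat.beq l 57 then
    Nat.beq e4 0 && redB e1 e2 (e3 + 1) (e4 + 1) e5 &&
      Nat.beq (C e1 e2 (e3 + 1) (e4 + 1) e5 / 8) 62 else true) &&
  (bif Nat.beq l 62 then
    Nat.ble 1 e3 && Nat.ble 1 e4 &&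
      (botAB (C e1 e2 (e3 - 1) (e4 - 1) e5 / 8) e1 e2 (e3 - 1) (e4 - 1) e5 ||
        Nat.beq (C e1 e2 (e3 - 1) (e4 - 1) e5 / 8) 57) else true)

/-- the zones -/
def zonesB (l e1 e2 e3 e4 e5 : ℕ) : Bool :=
  (bif Nat.ble ((5 * e5 - e2) + e3 + 23) (3 * e1) then Nat.ble 57 l else true) &&
  (bif Nat.ble ((3 * e1 - e3) + e2 + 10) (5 * e5) then Nat.ble 48 l && Nat.ble l 56 else true) &&
  (bif Nat.ble 15 e2 && Nat.ble e5 1 then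
    Nat.ble 57 l || (Nat.ble 32 l && Nat.blt l 48 && !topAB l e1 e2 e3 e4 e5) else true) &&
  (bif Nat.ble 13 e3 && Nat.ble e1 1 then
    (Nat.ble 48 l && Nat.ble l 56) ||
      (Nat.ble 32 l && Nat.blt l 48 && !botAB l e1 e2 e3 e4 e5) else true) &&
  (bif Nat.ble 20 e1 && Nat.ble 12 e5 then !(Nat.ble 32 l && Nat.blt l 48) else true)

/-- the local check of the bulk `C`; `l`, `m` label and move, `k` the label of `x₁ e` -/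
def chkB (C D : ℕ → ℕ → ℕ → ℕ → ℕ → ℕ) (l m e1 e2 e3 e4 e5 : ℕ) : Bool :=
  rangeNB l e1 e2 e3 e4 e5 &&
  (bif Nat.beq m 0 then
    Nat.beq l 62 ||
      (redB (e1 + 1) e2 e3 e4 e5 &&
        (fun k => Nat.ble 48 k && Nat.ble k 52 && Nat.beq (D (e1 + 1) e2 e3 e4 e5 / 8) k &&
          offB l k e1 e2 e3 e4 e5) (C (e1 + 1) e2 e3 e4 e5 / 8))
  else !Nat.beq l 56 && !Nat.beq l 62 && stepB C l m e1 e2 e3 e4 e5) &&
  predsB C (botAB l e1 e2 e3 e4 e5 || Nat.beq l 57 || stB C e1 e2 e3 e4 e5) e1 e2 e3 e4 e5 &&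
  botsB C l e1 e2 e3 e4 e5 &&
  zonesB l e1 e2 e3 e4 e5

/-- the local check of the cap `D` -/
def chkC (C D : ℕ → ℕ → ℕ → ℕ → ℕ → ℕ) (l m e1 e2 e3 e4 e5 : ℕ) : Bool :=
  rangeNB l e1 e2 e3 e4 e5 &&
  (bif Nat.beq m 0 then
    topAB l e1 e2 e3 e4 e5 || Nat.beq l 54 || Nat.beq l 62
  else !topAB l e1 e2 e3 e4 e5 && !Nat.beq l 54 && !Nat.beq l 56 && !Nat.beq l 62 &&
    stepB D l m e1 e2 e3 e4 e5) &&
  predsB D (botAB l e1 e2 e3 e4 e5 || Nat.beq l 57 || stB C e1 e2 e3 e4 e5) e1 e2 e3 e4 e5 &&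
  botsB D l e1 e2 e3 e4 e5 &&
  zonesB l e1 e2 e3 e4 e5

/-- the local check -/
def chk2 (C D : ℕ → ℕ → ℕ → ℕ → ℕ → ℕ) (e1 e2 e3 e4 e5 : ℕ) : Bool :=
  chkB C D (C e1 e2 e3 e4 e5 / 8) (C e1 e2 e3 e4 e5 % 8) e1 e2 e3 e4 e5 &&
    chkC C D (D e1 e2 e3 e4 e5 / 8) (D e1 e2 e3 e4 e5 % 8) e1 e2 e3 e4 e5

/-- the check of the window for a given `e5` -/
def chkRow2 (C D : ℕ → ℕ → ℕ → ℕ → ℕ → ℕ) (n e5 : ℕ) : Bool :=
  allN n fun e1 => bif pairB e1 e5 then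
    allN (bif Nat.ble e5 1 then 17 else 10) fun e2 =>
      allN (bif Nat.ble e1 1 then 15 else 6) fun e3 =>
        bif omB e1 e2 e3 e5 then chk2 C D e1 e2 e3 0 e5 && chk2 C D e1 e2 e3 1 e5 else true
    else true

end Pool.LB
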