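import Pool.Agent.Helper37.LS.Assemble
import Pool.Agent.Helper16.LS.Next

/-!
# Project LB (bulk and caps): definitions

Two rules on the reduced monomials: the bulk rule `lab, mo`, used for monomials of degree `< n`,
and the cap rule `labC, moC`, used for the monomials of degree `n`. The label `B q` means
`q = rank (first element of the chain) + rank - 5 degree`; the label `A o` means that the first
element of the chain has `d2 = -o`.
-/

set_option autoImplicit false

namespace Pool.LB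

open Pool.LS

/-- The labels. -/
inductive Lb where
  | A (o : ℕ)
  | B (q : ℤ)
  | C (j : ℕ)
deriving DecidableEq

/-- The label of the next element of a chain. -/
def Lb.next : Lb → Lb
  | .A o => .A o
  | .B q => .B (q + 1)
  | .C j => .C (j + 1)

/-- `e` is the bottom of its chain. -/
def Bt (lab : Mon → Lb) (e : Mon) : Prop :=
  lab e = .C 0 ∨ ∃ o : ℕ, lab e = .A o ∧ d2 e = -o

/-- `e` is the end of an exact chain. -/
def TpC (lab : Mon → Lb) (e : Mon) : Prop :=
  lab e = .B 0 ∨ ∃ o : ℕ, lab e = .A o ∧ d2 e = o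

/-- `e` is a top of the bulk. -/
def TpB (lab : Mon → Lb) (mo : Mon → ℕ) (e : Mon) : Prop := mo e = 0 ∧ lab e ≠ .C 5

/-- The top `e` with the label `l` has the offset `d`. -/
def Off (l : Lb) (e : Mon) (d : ℤ) : Prop :=
  l = .B d ∨ ∃ o : ℕ, l = .A o ∧ d2 e = o + 2 * d

/-- `f` is the beginning of a chain `B`. -/
def St (α β : ℕ) (lab : Mon → Lb) (mo : Mon → ℕ) (f : Mon) : Prop :=
  ∃ t, f = x1 t ∧ Red α β t ∧ TpB lab mo t

/-- A pair of rules. -/
structure GoodBC (α β : ℕ) (lab : Mon → Lb) (mo : Mon → ℕ) (labC : Mon → Lb) (moC : Mon → ℕ) :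
    Prop where
  /-- every element that is not an end of a chain has a successor with the next label -/
  step : ∀ e, Red α β e → mo e ≠ 0 → ∃ f, Red α β f ∧ Mv (mo e) e f ∧ lab f = (lab e).next
  /-- the ends of the chains `C` -/
  endC : ∀ e, Red α β e → lab e = .C 5 → mo e = 0
  /-- `f` has at most one predecessor -/
  inj : ∀ e e' f, Red α β e → Red α β e' → Red α β f → mo e ≠ 0 → mo e' ≠ 0 →
    Mv (mo e) e f → Mv (mo e') e' f → e = e'
  /-- `f` has a predecessor unless it is the beginning of a chain -/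
  start : ∀ f, Red α β f →
    ((∃ e, Red α β e ∧ mo e ≠ 0 ∧ Mv (mo e) e f) ↔ ¬ (Bt lab f ∨ St α β lab mo f))
  /-- the tops `t` and the beginnings `x₁ t` of the chains `B` -/
  top : ∀ t, Red α β t → TpB lab mo t → Red α β (x1 t) ∧
    ∃ d : ℤ, Off (lab t) t d ∧ lab (x1 t) = .B (d - 4) ∧ labC (x1 t) = .B (d - 4)
  /-- the bottoms `u` and the ends `x₃ x₄ u` of the chains `C` -/
  bot : ∀ u, Red α β u → Bt lab u → u.e4 = 0 ∧ Red α β (x34 u) ∧ lab (x34 u) = .C 5
  botOf : ∀ e, Red α β e → lab e = .C 5 → ∃ u, e = x34 u ∧ Bt lab u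
  stepC : ∀ e, Red α β e → moC e ≠ 0 → ∃ f, Red α β f ∧ Mv (moC e) e f ∧ labC f = (labC e).next
  stopC : ∀ e, Red α β e → (moC e = 0 ↔ TpC labC e ∨ labC e = .C 5)
  injC : ∀ e e' f, Red α β e → Red α β e' → Red α β f → moC e ≠ 0 → moC e' ≠ 0 →
    Mv (moC e) e f → Mv (moC e') e' f → e = e'
  startC : ∀ f, Red α β f →
    ((∃ e, Red α β e ∧ moC e ≠ 0 ∧ Mv (moC e) e f) ↔ ¬ (Bt labC f ∨ St α β lab mo f))
  botC : ∀ u, Red α β u → Bt labC u → u.e4 = 0 ∧ Red α β (x34 u) ∧ labC (x34 u) = .C 5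
  botOfC : ∀ e, Red α β e → labC e = .C 5 → ∃ u, e = x34 u ∧ Bt labC u

end Pool.LB
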