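import Pool.Agent.Helper43.LB.Defs

/-!
# Project LB: from a pair of good rules to `L(5,n)`
-/

set_option autoImplicit false

namespace Pool.LB

open Pool.LS Pool.LS.Asm

/-- a move -/
def StM (α β : ℕ) (mo : Mon → ℕ) (b i j : ℕ) (r w : Mon) : Prop :=
  mo r ≠ 0 ∧ ∃ f, Red α β f ∧ Mv (mo r) r f ∧ w = comp α β b i j f

/-- from `x₀ t` to `x₁ t` -/
def StX (α β : ℕ) (lab : Mon → Lb) (mo : Mon → ℕ) (b i j : ℕ) (r w : Mon) : Prop :=
  TpB lab mo r ∧ w = comp α β b i j (x1 r)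

/-- from `x₃ x₄ u` to `x₄² u` -/
def StC (α β : ℕ) (lab : Mon → Lb) (b i j : ℕ) (r w : Mon) : Prop :=
  lab r = .C 5 ∧ ∃ u, r = x34 u ∧ Red α β u ∧ w = comp α β (b + 1) i j u

/-- `v → w` is a step of the chains. -/
def Step (α β : ℕ) (lab : Mon → Lb) (mo : Mon → ℕ) (labC : Mon → Lb) (moC : Mon → ℕ) (n : ℕ)
    (v w : Mon) : Prop :=
  ∃ b i j : ℕ, ∃ r : Mon, Red α β r ∧ v = comp α β b i j r ∧
    ((deg v < n ∧ (StM α β mo b i j r w ∨ StX α β lab mo b i j r w ∨ StC α β lab b i j r w)) ∨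
     (deg v = n ∧ (StM α β moC b i j r w ∨ StC α β labC b i j r w)))

/-- The length in terms of the label. -/
def ordL (n b d k : ℕ) : Lb → ℤ
  | .A o => (o : ℤ) + 5 * ((n : ℤ) - d) + 6 * b
  | .B q => 2 * ((k : ℤ) - q + 5 * ((n : ℤ) - d)) - 5 * n
  | .C j => 5 * (n : ℤ) - 2 * ((k : ℤ) - j - 6 * b)

/-- The label of `v`. -/
def labN (α β : ℕ) (lab : Mon → Lb) (labC : Mon → Lb) (n : ℕ) (v : Mon) : Lb :=
  if deg v < n then lab (rOf α β v) else labC (rOf α β v)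

/-- The length of the chain through `v`. -/
def ordM (α β : ℕ) (lab : Mon → Lb) (labC : Mon → Lb) (n : ℕ) (v : Mon) : ℤ :=
  ordL n (bOf v) (deg v) (rk v) (labN α β lab labC n v)

theorem ordM_lt {α β : ℕ} (hα : 0 < α) (hβ : 0 < β) (lab labC : Mon → Lb) (n b i j : ℕ) {r : Mon}
    (hr : Red α β r) (hd : deg (comp α β b i j r) < n) :
    ordM α β lab labC n (comp α β b i j r) =
      ordL n b (deg (comp α β b i j r)) (rk (comp α β b i j r)) (lab r) := by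
  obtain ⟨h1, h2⟩ := rOf_comp (b := b) (i := i) (j := j) hα hβ hr
  unfold ordM labN
  rw [h1, h2, if_pos hd]

theorem ordM_ge {α β : ℕ} (hα : 0 < α) (hβ : 0 < β) (lab labC : Mon → Lb) (n b i j : ℕ) {r : Mon}
    (hr : Red α β r) (hd : ¬ deg (comp α β b i j r) < n) :
    ordM α β lab labC n (comp α β b i j r) =
      ordL n b (deg (comp α β b i j r)) (rk (comp α β b i j r)) (labC r) := by
  obtain ⟨h1, h2⟩ := rOf_comp (b := b) (i := i) (j := j) hα hβ hr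
  unfold ordM labN
  rw [h1, h2, if_neg hd]

theorem bt_ne_B {lab : Mon → Lb} {r : Mon} {q : ℤ} (h : Bt lab r) : lab r ≠ .B q := by
  intro h'
  rcases h with h | ⟨o, h, -⟩ <;> rw [h'] at h <;> cases h

theorem tpC_ne_C {lab : Mon → Lb} {r : Mon} {j : ℕ} (h : TpC lab r) : lab r ≠ .C j := by
  intro h'
  rcases h with h | ⟨o, h, -⟩ <;> rw [h'] at h <;> cases h

/-- A move inside a layer keeps the length. -/
theorem ordL_next (n b d k : ℕ) (l : Lb) : ordL n b d (k + 1) l.next = ordL n b d k l := by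
  cases l with
  | A o => rfl
  | B q =>
    simp only [Lb.next, ordL]
    push_cast
    ring
  | C j =>
    simp only [Lb.next, ordL]
    push_cast
    ring

section
variable {α β : ℕ} {lab : Mon → Lb} {mo : Mon → ℕ} {labC : Mon → Lb} {moC : Mon → ℕ}

theorem deg_stM {mo : Mon → ℕ} {b i j : ℕ} {r w : Mon} (h : StM α β mo b i j r w) :
    deg w = deg (comp α β b i j r) ∧ rk w = rk (comp α β b i j r) + 1 := by
  obtain ⟨-, f, -, hf, rfl⟩ := h
  have := Mv_deg hf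
  rw [deg_comp, deg_comp, rk_comp, rk_comp, this.1, this.2]
  omega

theorem deg_stX {b i j : ℕ} {r w : Mon} (h : StX α β lab mo b i j r w) :
    deg w = deg (comp α β b i j r) + 1 ∧ rk w = rk (comp α β b i j r) + 1 := by
  obtain ⟨-, rfl⟩ := h
  have := deg_x1 r
  rw [deg_comp, deg_comp, rk_comp, rk_comp, this.1, this.2]
  omega

theorem deg_stC {lab : Mon → Lb} {b i j : ℕ} {r w : Mon} (h : StC α β lab b i j r w) :
    deg w = deg (comp α β b i j r) ∧ rk w = rk (comp α β b i j r) + 1 := by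
  obtain ⟨-, u, hu, -, rfl⟩ := h
  have := deg_x34 u
  rw [deg_comp, deg_comp, rk_comp, rk_comp, hu, this.1, this.2]
  omega

theorem step_deg {n : ℕ} {v w : Mon} (h : Step α β lab mo labC moC n v w) :
    deg v ≤ n ∧ deg w ≤ n ∧ rk w = rk v + 1 := by
  obtain ⟨b, i, j, r, hr, hv, h⟩ := h
  rcases h with ⟨hd, h | h | h⟩ | ⟨hd, h | h⟩
  · have := deg_stM h; rw [← hv] at this; omega
  · have := deg_stX h; rw [← hv] at this; omega
  · have := deg_stC h; rw [← hv] at this; omega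
  · have := deg_stM h; rw [← hv] at this; omega
  · have := deg_stC h; rw [← hv] at this; omega

theorem stM_fun {mo : Mon → ℕ} {b i j : ℕ} {r w w' : Mon} (h : StM α β mo b i j r w)
    (h' : StM α β mo b i j r w') : w = w' := by
  obtain ⟨-, f, -, hf, rfl⟩ := h
  obtain ⟨-, f', -, hf', rfl⟩ := h'
  rw [Mv_unique hf hf']

theorem stC_fun {lab : Mon → Lb} {b i j : ℕ} {r w w' : Mon} (h : StC α β lab b i j r w)
    (h' : StC α β lab b i j r w') : w = w' := by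
  obtain ⟨-, u, hu, -, rfl⟩ := h
  obtain ⟨-, u', hu', -, rfl⟩ := h'
  rw [x34_inj (hu.symm.trans hu')]

variable (h : GoodBC α β lab mo labC moC)
include h

theorem step_fun {n : ℕ} {v w w' : Mon} (hs : Step α β lab mo labC moC n v w)
    (hs' : Step α β lab mo labC moC n v w') : w = w' := by
  obtain ⟨b, i, j, r, hr, hv, hs⟩ := hs
  obtain ⟨b', i', j', r', hr', hv', hs'⟩ := hs'
  obtain ⟨rfl, rfl, rfl, rfl⟩ := comp_inj hr hr' (hv.symm.trans hv')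
  rcases hs with ⟨hd, hs | hs | hs⟩ | ⟨hd, hs | hs⟩ <;>
  rcases hs' with ⟨hd', hs' | hs' | hs'⟩ | ⟨hd', hs' | hs'⟩
  · exact stM_fun hs hs'
  · exact absurd hs'.1.1 hs.1
  · exact absurd (h.endC r hr hs'.1) hs.1
  · omega
  · omega
  · exact absurd hs.1.1 hs'.1
  · rw [hs.2, hs'.2]
  · exact absurd hs'.1 hs.1.2
  · omega
  · omega
  · exact absurd (h.endC r hr hs.1) hs'.1
  · exact absurd hs.1 hs'.1.2
  · exact stC_fun hs hs'
  · omega
  · omega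
  · omega
  · omega
  · omega
  · exact stM_fun hs hs'
  · exact absurd ((h.stopC r hr).2 (Or.inr hs'.1)) hs.1
  · omega
  · omega
  · omega
  · exact absurd ((h.stopC r hr).2 (Or.inr hs.1)) hs'.1
  · exact stC_fun hs hs'

/-- inversion -/
theorem step_inv {n : ℕ} {v w : Mon} (hs : Step α β lab mo labC moC n v w) :
    ∃ b i j : ℕ, ∃ f : Mon, Red α β f ∧ w = comp α β b i j f ∧
      ((deg w < n ∧ ∃ r, Red α β r ∧ mo r ≠ 0 ∧ Mv (mo r) r f ∧ v = comp α β b i j r) ∨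
       (∃ t, Red α β t ∧ TpB lab mo t ∧ f = x1 t ∧ v = comp α β b i j t) ∨
       (deg w < n ∧ Bt lab f ∧ ∃ b', b = b' + 1 ∧ v = comp α β b' i j (x34 f)) ∨
       (deg w = n ∧ ∃ r, Red α β r ∧ moC r ≠ 0 ∧ Mv (moC r) r f ∧ v = comp α β b i j r) ∨
       (deg w = n ∧ Bt labC f ∧ ∃ b', b = b' + 1 ∧ v = comp α β b' i j (x34 f))) := by
  obtain ⟨b, i, j, r, hr, hv, hs⟩ := hs
  rcases hs with ⟨hd, hs | hs | hs⟩ | ⟨hd, hs | hs⟩
  · have h1 := deg_stM hs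
    rw [← hv] at h1
    obtain ⟨hm, f, hf, hfm, rfl⟩ := hs
    exact ⟨b, i, j, f, hf, rfl, Or.inl ⟨by omega, r, hr, hm, hfm, hv⟩⟩
  · obtain ⟨ht, rfl⟩ := hs
    exact ⟨b, i, j, x1 r, (h.top r hr ht).1, rfl, Or.inr (Or.inl ⟨r, hr, ht, rfl, hv⟩)⟩
  · have h1 := deg_stC hs
    rw [← hv] at h1
    obtain ⟨hl, u, rfl, hu, rfl⟩ := hs
    obtain ⟨u', hu', hb⟩ := h.botOf _ hr hl
    obtain rfl := x34_inj hu'
    exact ⟨b + 1, i, j, u, hu, rfl, Or.inr (Or.inr (Or.inl ⟨by omega, hb, b, rfl, hv⟩))⟩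
  · have h1 := deg_stM hs
    rw [← hv] at h1
    obtain ⟨hm, f, hf, hfm, rfl⟩ := hs
    exact ⟨b, i, j, f, hf, rfl, Or.inr (Or.inr (Or.inr (Or.inl ⟨by omega, r, hr, hm, hfm, hv⟩)))⟩
  · have h1 := deg_stC hs
    rw [← hv] at h1
    obtain ⟨hl, u, rfl, hu, rfl⟩ := hs
    obtain ⟨u', hu', hb⟩ := h.botOfC _ hr hl
    obtain rfl := x34_inj hu'
    exact ⟨b + 1, i, j, u, hu, rfl, Or.inr (Or.inr (Or.inr (Or.inr ⟨by omega, hb, b, rfl, hv⟩)))⟩

theorem step_inj {n : ℕ} {v v' w : Mon} (hs : Step α β lab mo labC moC n v w)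
    (hs' : Step α β lab mo labC moC n v' w) : v = v' := by
  obtain ⟨b, i, j, f, hf, hw, hs⟩ := step_inv h hs
  obtain ⟨b', i', j', f', hf', hw', hs'⟩ := step_inv h hs'
  obtain ⟨rfl, rfl, rfl, rfl⟩ := comp_inj hf hf' (hw.symm.trans hw')
  -- the kinds exclude each other
  have kM : (∃ r, Red α β r ∧ mo r ≠ 0 ∧ Mv (mo r) r f) → ¬ (Bt lab f ∨ St α β lab mo f) :=
    (h.start f hf).1
  have kMC : (∃ r, Red α β r ∧ moC r ≠ 0 ∧ Mv (moC r) r f) → ¬ (Bt labC f ∨ St α β lab mo f) :=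
    (h.startC f hf).1
  have kX : ∀ t, Red α β t → TpB lab mo t → f = x1 t →
      St α β lab mo f ∧ ¬ Bt lab f ∧ ¬ Bt labC f := by
    intro t ht htp hft
    obtain ⟨-, d, -, h1, h2⟩ := h.top t ht htp
    refine ⟨⟨t, hft, ht, htp⟩, fun hb => bt_ne_B hb (hft ▸ h1), fun hb => bt_ne_B hb (hft ▸ h2)⟩
  rcases hs with ⟨hd, r, hr, hm, hfm, hv⟩ | ⟨t, ht, htp, hft, hv⟩ | ⟨hd, hb, c, hc, hv⟩ |
      ⟨hd, r, hr, hm, hfm, hv⟩ | ⟨hd, hb, c, hc, hv⟩ <;>
  rcases hs' with ⟨hd', r', hr', hm', hfm', hv'⟩ | ⟨t', ht', htp', hft', hv'⟩ |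
      ⟨hd', hb', c', hc', hv'⟩ | ⟨hd', r', hr', hm', hfm', hv'⟩ | ⟨hd', hb', c', hc', hv'⟩
  · rw [hv, hv', h.inj r r' f hr hr' hf hm hm' hfm hfm']
  · exact absurd (Or.inr (kX t' ht' htp' hft').1) (kM ⟨r, hr, hm, hfm⟩)
  · exact absurd (Or.inl hb') (kM ⟨r, hr, hm, hfm⟩)
  · omega
  · omega
  · exact absurd (Or.inr (kX t ht htp hft).1) (kM ⟨r', hr', hm', hfm'⟩)
  · rw [hv, hv', x1_inj (hft.symm.trans hft')]
  · exact absurd hb' (kX t ht htp hft).2.1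
  · exact absurd (Or.inr (kX t ht htp hft).1) (kMC ⟨r', hr', hm', hfm'⟩)
  · exact absurd hb' (kX t ht htp hft).2.2
  · exact absurd (Or.inl hb) (kM ⟨r', hr', hm', hfm'⟩)
  · exact absurd hb (kX t' ht' htp' hft').2.1
  · rw [hv, hv', show c = c' by omega]
  · omega
  · omega
  · omega
  · exact absurd (Or.inr (kX t' ht' htp' hft').1) (kMC ⟨r, hr, hm, hfm⟩)
  · omega
  · rw [hv, hv', h.injC r r' f hr hr' hf hm hm' hfm hfm']
  · exact absurd (Or.inl hb') (kMC ⟨r, hr, hm, hfm⟩)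
  · omega
  · exact absurd hb (kX t' ht' htp' hft').2.2
  · omega
  · exact absurd (Or.inl hb) (kMC ⟨r', hr', hm', hfm'⟩)
  · rw [hv, hv', show c = c' by omega]

end

end Pool.LB
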