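import Pool.Agent.Helper43.LB.Reduce

/-!
# Project LB: from a pair of good rules to `L(5,n)`, part 2
-/

set_option autoImplicit false

namespace Pool.LB

open Pool.LS Pool.LS.Asm

theorem ordL_x1 (α β n b i j : ℕ) (r : Mon) (l : Lb) (d : ℤ) (hl : Off l r d) :
    ordL n b (deg (comp α β b i j (x1 r))) (rk (comp α β b i j (x1 r))) (.B (d - 4)) =
      ordL n b (deg (comp α β b i j r)) (rk (comp α β b i j r)) l := by
  have ev := two_rk_comp α β b i j r
  have h1 := deg_x1 r
  have hdeg : deg (comp α β b i j (x1 r)) = deg (comp α β b i j r) + 1 := by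
    rw [deg_comp, deg_comp, h1.1]
    omega
  have hrk : rk (comp α β b i j (x1 r)) = rk (comp α β b i j r) + 1 := by
    rw [rk_comp, rk_comp, h1.2]
    omega
  rw [hdeg, hrk]
  rcases hl with rfl | ⟨o, rfl, hd2⟩
  · simp only [ordL]
    push_cast
    ring
  · simp only [ordL]
    rw [hd2] at ev
    push_cast at ev ⊢
    linarith

theorem ordL_x34 (α β n b i j : ℕ) (u : Mon) (lab : Mon → Lb) (hb : Bt lab u) :
    ordL n (b + 1) (deg (comp α β (b + 1) i j u)) (rk (comp α β (b + 1) i j u)) (lab u) =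
      ordL n b (deg (comp α β b i j (x34 u))) (rk (comp α β b i j (x34 u))) (.C 5) := by
  have h1 := deg_x34 u
  have hdeg : deg (comp α β (b + 1) i j u) = deg (comp α β b i j (x34 u)) := by
    rw [deg_comp, deg_comp, h1.1]
    omega
  have hrk : rk (comp α β (b + 1) i j u) = rk (comp α β b i j (x34 u)) + 1 := by
    rw [rk_comp, rk_comp, h1.2]
    omega
  have ev2 := two_rk_comp α β (b + 1) i j u
  rw [hdeg, hrk] at ev2
  rw [hdeg, hrk]
  rcases hb with hb | ⟨o, hb, hd2⟩
  · rw [hb]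
    simp only [ordL]
    push_cast
    ring
  · rw [hb]
    simp only [ordL]
    rw [hd2] at ev2
    push_cast at ev2 ⊢
    linarith

section
variable {α β : ℕ} {lab : Mon → Lb} {mo : Mon → ℕ} {labC : Mon → Lb} {moC : Mon → ℕ}
  (hα : 0 < α) (hβ : 0 < β) (h : GoodBC α β lab mo labC moC)
include hα hβ h

theorem ord_step {n : ℕ} {v w : Mon} (hs : Step α β lab mo labC moC n v w) :
    ordM α β lab labC n w = ordM α β lab labC n v := by
  obtain ⟨b, i, j, r, hr, rfl, hs⟩ := hs
  rcases hs with ⟨hd, hs | hs | hs⟩ | ⟨hd, hs | hs⟩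
  · have h1 := deg_stM hs
    obtain ⟨hm, f, hf, hfm, rfl⟩ := hs
    obtain ⟨f', hf', hfm', hl⟩ := h.step r hr hm
    obtain rfl := Mv_unique hfm hfm'
    rw [ordM_lt hα hβ lab labC n b i j hr hd, ordM_lt hα hβ lab labC n b i j hf (h1.1 ▸ hd), h1.1,
      h1.2, hl, ordL_next]
  · obtain ⟨ht, rfl⟩ := hs
    obtain ⟨hr1, d, ho, h2, h3⟩ := h.top r hr ht
    rw [ordM_lt hα hβ lab labC n b i j hr hd, ← ordL_x1 α β n b i j r _ d ho]
    by_cases hd1 : deg (comp α β b i j (x1 r)) < n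
    · rw [ordM_lt hα hβ lab labC n b i j hr1 hd1, h2]
    · rw [ordM_ge hα hβ lab labC n b i j hr1 hd1, h3]
  · have h1 := deg_stC hs
    obtain ⟨hl, u, rfl, hu, rfl⟩ := hs
    obtain ⟨u', hu', hb⟩ := h.botOf _ hr hl
    obtain rfl := x34_inj hu'
    rw [ordM_lt hα hβ lab labC n b i j hr hd,
      ordM_lt hα hβ lab labC n (b + 1) i j hu (h1.1 ▸ hd), hl, ordL_x34 α β n b i j u lab hb]
  · have h1 := deg_stM hs
    obtain ⟨hm, f, hf, hfm, rfl⟩ := hs
    obtain ⟨f', hf', hfm', hl⟩ := h.stepC r hr hm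
    obtain rfl := Mv_unique hfm hfm'
    rw [ordM_ge hα hβ lab labC n b i j hr (by omega),
      ordM_ge hα hβ lab labC n b i j hf (by omega), h1.1, h1.2, hl, ordL_next]
  · have h1 := deg_stC hs
    obtain ⟨hl, u, rfl, hu, rfl⟩ := hs
    obtain ⟨u', hu', hb⟩ := h.botOfC _ hr hl
    obtain rfl := x34_inj hu'
    rw [ordM_ge hα hβ lab labC n b i j hr (by omega),
      ordM_ge hα hβ lab labC n (b + 1) i j hu (by omega), hl, ordL_x34 α β n b i j u labC hb]

theorem top_of {n : ℕ} {v : Mon} (hn : deg v ≤ n)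
    (hs : ¬ ∃ w, Step α β lab mo labC moC n v w) :
    2 * (rk v : ℤ) = 5 * n + ordM α β lab labC n v := by
  have hr := red_rOf hα hβ v
  have hv := (comp_rOf hα hβ v).symm
  set b := bOf v
  set i := iOf α v
  set j := jOf β v
  set r := rOf α β v
  by_cases hd : deg v < n
  · exfalso
    by_cases hm : mo r = 0
    · by_cases hl : lab r = .C 5
      · obtain ⟨u, hu, hb⟩ := h.botOf r hr hl
        have hur : Red α β u := red_of_x34 (hu ▸ hr)
        exact hs ⟨_, b, i, j, r, hr, hv, Or.inl ⟨hd, Or.inr (Or.inr ⟨hl, u, hu, hur, rfl⟩)⟩⟩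
      · exact hs ⟨_, b, i, j, r, hr, hv, Or.inl ⟨hd, Or.inr (Or.inl ⟨⟨hm, hl⟩, rfl⟩)⟩⟩
    · obtain ⟨f, hf, hfm, -⟩ := h.step r hr hm
      exact hs ⟨_, b, i, j, r, hr, hv, Or.inl ⟨hd, Or.inl ⟨hm, f, hf, hfm, rfl⟩⟩⟩
  · have hdn : deg v = n := by omega
    have hm : moC r = 0 := by
      by_contra hm
      obtain ⟨f, hf, hfm, -⟩ := h.stepC r hr hm
      exact hs ⟨_, b, i, j, r, hr, hv, Or.inr ⟨hdn, Or.inl ⟨hm, f, hf, hfm, rfl⟩⟩⟩
    rcases (h.stopC r hr).1 hm with ht | hC
    · have ev := two_rk_comp α β b i j r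
      have eo := ordM_ge hα hβ lab labC n b i j hr (by rw [← hv]; exact hd)
      rw [← hv] at ev eo
      rw [eo]
      rcases ht with ht | ⟨o, ht, hd2⟩
      · rw [ht, hdn]
        simp only [ordL]
        ring
      · rw [ht]
        simp only [ordL]
        rw [hd2, hdn] at ev
        rw [hdn]
        linarith
    · obtain ⟨u, hu, hb⟩ := h.botOfC r hr hC
      have hur : Red α β u := red_of_x34 (hu ▸ hr)
      exact absurd ⟨_, b, i, j, r, hr, hv, Or.inr ⟨hdn, Or.inr ⟨hC, u, hu, hur, rfl⟩⟩⟩ hs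

theorem bot_of {n : ℕ} {w : Mon} (hn : deg w ≤ n)
    (hs : ¬ ∃ v, deg v ≤ n ∧ Step α β lab mo labC moC n v w) :
    2 * (rk w : ℤ) + ordM α β lab labC n w = 5 * n := by
  have hr := red_rOf hα hβ w
  have hw := (comp_rOf hα hβ w).symm
  set b := bOf w
  set i := iOf α w
  set j := jOf β w
  set s := rOf α β w
  -- not a beginning of a chain `B`
  have hX : ¬ St α β lab mo s := by
    rintro ⟨t, ht, htr, htp⟩
    have h1 := deg_x1 t
    have hlt : deg (comp α β b i j t) < n := by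
      rw [hw, deg_comp, ht, h1.1] at hn
      rw [deg_comp]
      omega
    exact hs ⟨comp α β b i j t, hlt.le, b, i, j, t, htr, rfl,
      Or.inl ⟨hlt, Or.inr (Or.inl ⟨htp, by rw [hw, ht]⟩)⟩⟩
  -- the final computation
  have fin : ∀ l : Mon → Lb, Bt l s → b = 0 →
      2 * (rk w : ℤ) + ordL n b (deg w) (rk w) (l s) = 5 * n := by
    intro l hb hb0
    have ev := two_rk_comp α β b i j s
    rw [← hw] at ev
    rcases hb with hb | ⟨o, hb, hd2⟩
    · rw [hb, hb0]
      simp only [ordL]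
      push_cast
      ring
    · rw [hb]
      simp only [ordL]
      rw [hd2, hb0] at ev
      rw [hb0]
      push_cast at ev ⊢
      linarith
  have hdeg34 : ∀ b' : ℕ, b = b' + 1 → deg (comp α β b' i j (x34 s)) = deg w := by
    intro b' hb'
    have h1 := deg_x34 s
    rw [hw, deg_comp, deg_comp, h1.1]
    omega
  by_cases hd : deg w < n
  · have hbt : Bt lab s := by
      by_contra hst
      obtain ⟨e, he, hme, hmv⟩ := (h.start s hr).2 (fun hh => hh.elim hst hX)
      have h1 : deg (comp α β b i j e) = deg w := by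
        rw [hw, deg_comp, deg_comp, (Mv_deg hmv).1]
      exact hs ⟨comp α β b i j e, by omega, b, i, j, e, he, rfl,
        Or.inl ⟨by omega, Or.inl ⟨hme, s, hr, hmv, hw⟩⟩⟩
    have hb0 : b = 0 := by
      by_contra hb0
      obtain ⟨b', hb'⟩ := Nat.exists_eq_succ_of_ne_zero hb0
      obtain ⟨-, h34, hC⟩ := h.bot s hr hbt
      have h1 := hdeg34 b' hb'
      exact hs ⟨comp α β b' i j (x34 s), by omega, b', i, j, x34 s, h34, rfl,
        Or.inl ⟨by omega, Or.inr (Or.inr ⟨hC, s, rfl, hr, by rw [hw, hb']⟩)⟩⟩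
    have eo := ordM_lt hα hβ lab labC n b i j hr (by rw [← hw]; exact hd)
    rw [← hw] at eo
    rw [eo]
    exact fin lab hbt hb0
  · have hdn : deg w = n := by omega
    have hbt : Bt labC s := by
      by_contra hst
      obtain ⟨e, he, hme, hmv⟩ := (h.startC s hr).2 (fun hh => hh.elim hst hX)
      have h1 : deg (comp α β b i j e) = deg w := by
        rw [hw, deg_comp, deg_comp, (Mv_deg hmv).1]
      exact hs ⟨comp α β b i j e, by omega, b, i, j, e, he, rfl,
        Or.inr ⟨by omega, Or.inl ⟨hme, s, hr, hmv, hw⟩⟩⟩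
    have hb0 : b = 0 := by
      by_contra hb0
      obtain ⟨b', hb'⟩ := Nat.exists_eq_succ_of_ne_zero hb0
      obtain ⟨-, h34, hC⟩ := h.botC s hr hbt
      have h1 := hdeg34 b' hb'
      exact hs ⟨comp α β b' i j (x34 s), by omega, b', i, j, x34 s, h34, rfl,
        Or.inr ⟨by omega, Or.inr ⟨hC, s, rfl, hr, by rw [hw, hb']⟩⟩⟩
    have eo := ordM_ge hα hβ lab labC n b i j hr (by rw [← hw]; exact hd)
    rw [← hw] at eo
    rw [eo]
    exact fin labC hbt hb0

end

theorem stM_le {α β : ℕ} {mo : Mon → ℕ} {b i j : ℕ} {r w : Mon} (h : StM α β mo b i j r w) :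
    ofMon (comp α β b i j r) ≤ ofMon w := by
  obtain ⟨-, f, -, hfm, rfl⟩ := h
  unfold Mv at hfm
  intro k
  fin_cases k <;> simp [ofMon, comp] <;> omega

theorem stC_le {α β : ℕ} {lab : Mon → Lb} {b i j : ℕ} {r w : Mon} (h : StC α β lab b i j r w) :
    ofMon (comp α β b i j r) ≤ ofMon w := by
  obtain ⟨-, u, rfl, -, rfl⟩ := h
  intro k
  fin_cases k <;> simp [ofMon, comp, x34] <;> omega

theorem step_le {α β : ℕ} {lab : Mon → Lb} {mo : Mon → ℕ} {labC : Mon → Lb} {moC : Mon → ℕ}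
    {n : ℕ} {v w : Mon} (h : Step α β lab mo labC moC n v w) : ofMon v ≤ ofMon w := by
  obtain ⟨b, i, j, r, hr, rfl, h⟩ := h
  rcases h with ⟨-, h | h | h⟩ | ⟨-, h | h⟩
  · exact stM_le h
  · obtain ⟨-, rfl⟩ := h
    intro k
    fin_cases k <;> simp [ofMon, comp, x1]
  · exact stC_le h
  · exact stM_le h
  · exact stC_le h

open Classical in
/-- The successor function. -/
noncomputable def nextF (α β : ℕ) (lab : Mon → Lb) (mo : Mon → ℕ) (labC : Mon → Lb)
    (moC : Mon → ℕ) (n : ℕ) (x : Fin 5 → ℕ) : Option (Fin 5 → ℕ) :=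
  if h : ∃ w, Step α β lab mo labC moC n (toMon x) w then some (ofMon h.choose) else none

theorem nextF_some {α β : ℕ} {lab : Mon → Lb} {mo : Mon → ℕ} {labC : Mon → Lb} {moC : Mon → ℕ}
    {n : ℕ} {x y : Fin 5 → ℕ} (h : nextF α β lab mo labC moC n x = some y) :
    ∃ w, Step α β lab mo labC moC n (toMon x) w ∧ y = ofMon w := by
  unfold nextF at h
  split_ifs at h with hw
  exact ⟨hw.choose, hw.choose_spec, (Option.some.inj h).symm⟩

theorem nextF_of {α β : ℕ} {lab : Mon → Lb} {mo : Mon → ℕ} {labC : Mon → Lb} {moC : Mon → ℕ}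
    (hg : GoodBC α β lab mo labC moC) {n : ℕ} {x : Fin 5 → ℕ} {w : Mon}
    (h : Step α β lab mo labC moC n (toMon x) w) :
    nextF α β lab mo labC moC n x = some (ofMon w) := by
  have hw : ∃ w, Step α β lab mo labC moC n (toMon x) w := ⟨w, h⟩
  unfold nextF
  rw [dif_pos hw, step_fun hg hw.choose_spec h]

/-- A pair of good rules gives a symmetric chain decomposition of `L(5,n)` for all `n`. -/
theorem sco_of_goodBC (α β : ℕ) (hα : 0 < α) (hβ : 0 < β) (lab : Mon → Lb) (mo : Mon → ℕ)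
    (labC : Mon → Lb) (moC : Mon → ℕ) (h : GoodBC α β lab mo labC moC) (n : ℕ) : SCO 5 n := by
  refine sco_of_next 5 n (nextF α β lab mo labC moC n)
    (fun x => ordM α β lab labC n (toMon x)) ?_ ?_ ?_ ?_
  · intro a b ha hab
    obtain ⟨w, hw, rfl⟩ := nextF_some hab
    have h1 := step_deg hw
    have h2 := step_le hw
    rw [of_to ha.1] at h2
    refine ⟨⟨mono_of w, (le_of w n).2 h1.2.1⟩, h2, ?_, ?_⟩
    · rw [sum_of, h1.2.2, ← sum_of, of_to ha.1]
    · show ordM α β lab labC n (toMon (ofMon w)) = _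
      rw [to_of]
      exact ord_step hα hβ h hw
  · intro a a' b ha ha' hb hb'
    obtain ⟨w, hw, hwb⟩ := nextF_some hb
    obtain ⟨w', hw', hwb'⟩ := nextF_some hb'
    have e : w = w' := by
      rw [← to_of w, ← to_of w', ← hwb, ← hwb']
    subst e
    have := step_inj h hw hw'
    rw [← of_to ha.1, ← of_to ha'.1, this]
  · intro a ha hn
    have hno : ¬ ∃ w, Step α β lab mo labC moC n (toMon a) w := by
      rintro ⟨w, hw⟩
      rw [nextF_of h hw] at hn
      cases hn
    have h1 := top_of hα hβ h (mem_deg ha) hno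
    rw [← sum_of, of_to ha.1] at h1
    exact_mod_cast h1
  · intro b hb hno
    have h1 := bot_of hα hβ h (mem_deg hb) (n := n) (by
      rintro ⟨v, hv, hs⟩
      refine hno ⟨ofMon v, ⟨mono_of v, (le_of v n).2 hv⟩, ?_⟩
      rw [← to_of v] at hs
      rw [nextF_of h hs, of_to hb.1])
    rw [← sum_of, of_to hb.1] at h1
    exact_mod_cast h1

end Pool.LB
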