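import Pool.Agent.Helper43.LB.Chk
import Pool.Agent.Helper43.LB.Window2
import Pool.Agent.Helper43.LB.SndBase

/-!
# Project LB: soundness of the checker
-/

set_option autoImplicit false

namespace Pool.LB

open Pool.LS

/-! ### The labels -/

theorem decN_A {l : ℕ} (h : l < 32) : decN l = .A l := by
  unfold decN; rw [blt_true.mpr h]; rfl

theorem decN_L {l : ℕ} (h : 32 ≤ l) (h' : l < 48) : decN l = .L (l - 32) := by
  unfold decN; rw [blt_false.mpr h, blt_true.mpr h']; rfl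

theorem decN_B {l : ℕ} (h : 48 ≤ l) (h' : l < 57) : decN l = .B (l - 48) := by
  unfold decN; rw [blt_false.mpr (by omega : 32 ≤ l), blt_false.mpr h, blt_true.mpr h']; rfl

theorem decN_C {l : ℕ} (h : 57 ≤ l) : decN l = .C (l - 57) := by
  unfold decN
  rw [blt_false.mpr (by omega : 32 ≤ l), blt_false.mpr (by omega : 48 ≤ l), blt_false.mpr h]; rfl

/-- the four cases -/
theorem decN_cases (l : ℕ) : (l < 32 ∧ decN l = .A l) ∨ (32 ≤ l ∧ l < 48 ∧ decN l = .L (l - 32)) ∨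
    (48 ≤ l ∧ l < 57 ∧ decN l = .B (l - 48)) ∨ (57 ≤ l ∧ decN l = .C (l - 57)) := by
  rcases Nat.lt_or_ge l 32 with h | h
  · exact Or.inl ⟨h, decN_A h⟩
  rcases Nat.lt_or_ge l 48 with h' | h'
  · exact Or.inr (Or.inl ⟨h, h', decN_L h h'⟩)
  rcases Nat.lt_or_ge l 57 with h'' | h''
  · exact Or.inr (Or.inr (Or.inl ⟨h', h'', decN_B h' h''⟩))
  · exact Or.inr (Or.inr (Or.inr ⟨h'', decN_C h''⟩))

theorem decN_B_iff {l j : ℕ} : decN l = .B j ↔ 48 ≤ l ∧ l < 57 ∧ j = l - 48 := by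
  rcases decN_cases l with ⟨h, e⟩ | ⟨h, h', e⟩ | ⟨h, h', e⟩ | ⟨h, e⟩
  · rw [e]; constructor
    · intro k; cases k
    · intro k; omega
  · rw [e]; constructor
    · intro k; cases k
    · intro k; omega
  · rw [e]; constructor
    · intro k; injection k with k; exact ⟨h, h', k.symm⟩
    · intro k; rw [k.2.2]
  · rw [e]; constructor
    · intro k; cases k
    · intro k; omega

theorem decN_C_iff {l j : ℕ} : decN l = .C j ↔ 57 ≤ l ∧ j = l - 57 := by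
  rcases decN_cases l with ⟨h, e⟩ | ⟨h, h', e⟩ | ⟨h, h', e⟩ | ⟨h, e⟩
  · rw [e]; constructor
    · intro k; cases k
    · intro k; omega
  · rw [e]; constructor
    · intro k; cases k
    · intro k; omega
  · rw [e]; constructor
    · intro k; cases k
    · intro k; omega
  · rw [e]; constructor
    · intro k; injection k with k; exact ⟨h, k.symm⟩
    · intro k; rw [k.2]

theorem decN_B6 {l : ℕ} : decN l = .B 6 ↔ l = 54 := by rw [decN_B_iff]; omega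
theorem decN_C5 {l : ℕ} : decN l = .C 5 ↔ l = 62 := by rw [decN_C_iff]; omega
theorem decN_C0 {l : ℕ} : decN l = .C 0 ↔ l = 57 := by rw [decN_C_iff]; omega

/-- the next label -/
theorem decN_next {l l' : ℕ} (h56 : l ≠ 56) (h : l' = bif Nat.blt l 48 then l else l + 1) :
    decN l' = (decN l).next := by
  rcases Nat.lt_or_ge l 48 with h48 | h48
  · rw [blt_true.mpr h48] at h
    change l' = l at h
    rw [h]
    rcases decN_cases l with ⟨k, e⟩ | ⟨k, k', e⟩ | ⟨k, k', e⟩ | ⟨k, e⟩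
    · rw [e]; rfl
    · rw [e]; rfl
    · omega
    · omega
  · rw [blt_false.mpr h48] at h
    change l' = l + 1 at h
    rw [h]
    rcases Nat.lt_or_ge l 57 with h53 | h53
    · rw [decN_B h48 h53, decN_B (by omega) (by omega)]
      change LLab.B (l + 1 - 48) = LLab.B (l - 48 + 1)
      congr 1; omega
    · rw [decN_C h53, decN_C (by omega)]
      change LLab.C (l + 1 - 57) = LLab.C (l - 57 + 1)
      congr 1; omega

theorem topN_iff (l : ℕ) (e : Mon) :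
    topAB l e.e1 e.e2 e.e3 e.e4 e.e5 = true ↔ isTopA (decN l) e := by
  unfold topAB
  rw [bif_true, Bool.and_eq_true, nbeq_true, nbeq_true, blt_true, blt_true, blt_false]
  rcases decN_cases l with ⟨h, k⟩ | ⟨h, h', k⟩ | ⟨h, h', k⟩ | ⟨h, k⟩
  · rw [k]; simp only [isTopA, up, dn]; omega
  · rw [k]; simp only [isTopA, up, dn, deg]; omega
  · rw [k]; exact ⟨fun q => by omega, fun q => q.elim⟩
  · rw [k]; exact ⟨fun q => by omega, fun q => q.elim⟩

theorem botN_iff (l : ℕ) (e : Mon) :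
    botAB l e.e1 e.e2 e.e3 e.e4 e.e5 = true ↔ isBotA (decN l) e := by
  unfold botAB
  rw [bif_true, Bool.and_eq_true, nbeq_true, nbeq_true, blt_true, blt_true, blt_false]
  rcases decN_cases l with ⟨h, k⟩ | ⟨h, h', k⟩ | ⟨h, h', k⟩ | ⟨h, k⟩
  · rw [k]; simp only [isBotA, up, dn]; omega
  · rw [k]; simp only [isBotA, up, dn, deg]; omega
  · rw [k]; exact ⟨fun q => by omega, fun q => q.elim⟩
  · rw [k]; exact ⟨fun q => by omega, fun q => q.elim⟩

theorem rangeN_imp (l : ℕ) (e : Mon) (h : rangeNB l e.e1 e.e2 e.e3 e.e4 e.e5 = true) :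
    rangeN (decN l) e := by
  unfold rangeNB at h
  rw [bif_true, bif_true, Bool.and_eq_true, ble_true,
    ble_true, blt_true, blt_true, blt_true, blt_false, blt_false] at h
  rcases decN_cases l with ⟨k1, k⟩ | ⟨k1, k2, k⟩ | ⟨k1, k2, k⟩ | ⟨k1, k⟩
  · rw [k]; trivial
  · rw [k]; simp only [rangeN, up, dn, deg]; omega
  · rw [k]; simp only [rangeN]; omega
  · rw [k]; simp only [rangeN]; omega

theorem off_imp (l k : ℕ) (e : Mon) (hk : 48 ≤ k) (hk' : k ≤ 52)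
    (h : offB l k e.e1 e.e2 e.e3 e.e4 e.e5 = true) :
    OffN (decN l) e (k - 48) := by
  unfold offB at h
  rw [bif_true, bif_true, Bool.and_eq_true, Bool.and_eq_true, nbeq_true, nbeq_true, nbeq_true,
    nbeq_true, blt_true, blt_true, blt_true, blt_false, blt_false] at h
  rcases decN_cases l with ⟨k1, q⟩ | ⟨k1, k2, q⟩ | ⟨k1, k2, q⟩ | ⟨k1, q⟩
  · rw [q]; simp only [OffN, up, dn]; omega
  · rw [q]; simp only [OffN, up, dn, deg]; omega
  · rw [q]; simp only [OffN]; omega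
  · omega

/-- the step -/
theorem stepN_imp (C : ℕ → ℕ → ℕ → ℕ → ℕ → ℕ) (l m : ℕ) (e : Mon) (h56 : l ≠ 56)
    (h : stepB C l m e.e1 e.e2 e.e3 e.e4 e.e5 = true) :
    ∃ f, mvF m e = some f ∧ Red 2 2 f ∧ labK C f = (decN l).next := by
  unfold stepB at h
  rw [bif_true, nbeq_true, nbeq_false] at h
  by_cases h1 : m = 1
  · have h := h.1 h1
    rw [Bool.and_eq_true, Bool.and_eq_true, redB_iff, ble_true, nbeq_true] at h
    obtain ⟨⟨k1, k2⟩, k3⟩ := h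
    exact ⟨_, by rw [h1]; simp only [mvF]; rw [if_pos k1], k2, decN_next h56 k3⟩
  have h := h.2 h1
  rw [bif_true, nbeq_true, nbeq_false] at h
  by_cases h2 : m = 2
  · have h := h.1 h2
    rw [Bool.and_eq_true, Bool.and_eq_true, redB_iff, ble_true, nbeq_true] at h
    obtain ⟨⟨k1, k2⟩, k3⟩ := h
    exact ⟨_, by rw [h2]; simp only [mvF]; rw [if_pos k1], k2, decN_next h56 k3⟩
  have h := h.2 h2
  rw [bif_true, nbeq_true, nbeq_false] at h
  by_cases h3 : m = 3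
  · have h := h.1 h3
    rw [Bool.and_eq_true, Bool.and_eq_true, redB_iff, ble_true, nbeq_true] at h
    obtain ⟨⟨k1, k2⟩, k3⟩ := h
    exact ⟨_, by rw [h3]; simp only [mvF]; rw [if_pos k1], k2, decN_next h56 k3⟩
  have h := h.2 h3
  rw [Bool.and_eq_true, Bool.and_eq_true, Bool.and_eq_true, redB_iff, ble_true, nbeq_true,
    nbeq_true] at h
  obtain ⟨⟨⟨h4, k1⟩, k2⟩, k3⟩ := h
  exact ⟨_, by rw [h4]; simp only [mvF]; rw [if_pos k1], k2, decN_next h56 k3⟩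

theorem st_iffB (C : ℕ → ℕ → ℕ → ℕ → ℕ → ℕ) (e : Mon) :
    stB C e.e1 e.e2 e.e3 e.e4 e.e5 = true ↔ IsSt (labK C) (moOf C) e := by
  unfold stB IsSt IsTp
  rw [Bool.and_eq_true, Bool.and_eq_true, ble_true, nbeq_true, Bool.not_eq_true', nbeq_false]
  constructor
  · rintro ⟨⟨h1, h2⟩, h3⟩
    refine ⟨⟨e.e1 - 1, e.e2, e.e3, e.e4, e.e5⟩, ?_, h2, fun h => h3 (decN_C5.mp h)⟩
    unfold x1
    obtain ⟨e1, e2, e3, e4, e5⟩ := e
    change 1 ≤ e1 at h1
    change (⟨e1, e2, e3, e4, e5⟩ : Mon) = ⟨e1 - 1 + 1, e2, e3, e4, e5⟩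
    rw [Nat.sub_add_cancel h1]
  · rintro ⟨t, rfl, h2, h3⟩
    refine ⟨⟨?_, h2⟩, fun h => h3 (decN_C5.mpr h)⟩
    show 1 ≤ t.e1 + 1
    omega

/-- what `predsB` says -/
theorem preds_imp (C : ℕ → ℕ → ℕ → ℕ → ℕ → ℕ) (b : Bool) (e : Mon)
    (h3 : predsB C b e.e1 e.e2 e.e3 e.e4 e.e5 = true) :
    (b = false → ∃ k, Pred (moOf C) k e) ∧
    (∀ k k', Pred (moOf C) k e → Pred (moOf C) k' e → k = k') ∧
    (b = true → ∀ k, ¬ Pred (moOf C) k e) := by
  unfold predsB at h3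
  rw [bif_true] at h3
  have hstart : b = true → ∀ k, ¬ Pred (moOf C) k e := by
    intro hb k hk
    have h := h3.1 hb
    simp only [Bool.and_eq_true, Bool.not_eq_true', ← Bool.not_eq_true, p1_iff, p2_iff, p3_iff,
      p4_iff] at h
    obtain ⟨⟨⟨n1, n2⟩, n3⟩, n4⟩ := h
    rcases pred_cases hk with ⟨-, h⟩ | ⟨-, h⟩ | ⟨-, h⟩ | ⟨-, h⟩
    · exact n1 h
    · exact n2 h
    · exact n3 h
    · exact n4 h
  refine ⟨?_, ?_, hstart⟩
  · intro hb
    rcases one4_ex (h3.2 hb) with h | h | h | h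
    · exact ⟨1, (p1_iff C e).mp h⟩
    · exact ⟨2, (p2_iff C e).mp h⟩
    · exact ⟨3, (p3_iff C e).mp h⟩
    · exact ⟨4, (p4_iff C e).mp h⟩
  · intro k k' hk hk'
    cases hb : b with
    | true => exact absurd hk (hstart hb k)
    | false =>
      have h := h3.2 hb
      have n12 := one4_12 h
      have n13 := one4_13 h
      have n14 := one4_14 h
      have n23 := one4_23 h
      have n24 := one4_24 h
      have n34 := one4_34 h
      rw [p1_iff, p2_iff] at n12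
      rw [p1_iff, p3_iff] at n13
      rw [p1_iff, p4_iff] at n14
      rw [p2_iff, p3_iff] at n23
      rw [p2_iff, p4_iff] at n24
      rw [p3_iff, p4_iff] at n34
      rcases pred_cases hk with ⟨a, p⟩ | ⟨a, p⟩ | ⟨a, p⟩ | ⟨a, p⟩ <;>
        rcases pred_cases hk' with ⟨b, q⟩ | ⟨b, q⟩ | ⟨b, q⟩ | ⟨b, q⟩ <;>
        first
          | exact a.trans b.symm
          | exact (n12 ⟨p, q⟩).elim
          | exact (n13 ⟨p, q⟩).elim
          | exact (n14 ⟨p, q⟩).elim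
          | exact (n23 ⟨p, q⟩).elim
          | exact (n24 ⟨p, q⟩).elim
          | exact (n34 ⟨p, q⟩).elim
          | exact (n12 ⟨q, p⟩).elim
          | exact (n13 ⟨q, p⟩).elim
          | exact (n14 ⟨q, p⟩).elim
          | exact (n23 ⟨q, p⟩).elim
          | exact (n24 ⟨q, p⟩).elim
          | exact (n34 ⟨q, p⟩).elim

/-- the beginnings -/
theorem beg_iff (C : ℕ → ℕ → ℕ → ℕ → ℕ → ℕ) (l : ℕ) (e : Mon) :
    (isBotA (decN l) e ∨ decN l = .C 0 ∨ IsSt (labK C) (moOf C) e) ↔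
      (botAB l e.e1 e.e2 e.e3 e.e4 e.e5 || Nat.beq l 57 || stB C e.e1 e.e2 e.e3 e.e4 e.e5)
        = true := by
  rw [Bool.or_eq_true, Bool.or_eq_true, nbeq_true, botN_iff, decN_C0, st_iffB, or_assoc]

theorem bots_imp (C : ℕ → ℕ → ℕ → ℕ → ℕ → ℕ) (l : ℕ) (e : Mon)
    (h : botsB C l e.e1 e.e2 e.e3 e.e4 e.e5 = true) :
    ((isBotA (decN l) e ∨ decN l = .C 0) → e.e4 = 0 ∧ Red 2 2 (x34 e) ∧ labK C (x34 e) = .C 5) ∧
    (decN l = .C 5 → ∃ u, e = x34 u ∧ (isBotA (labK C u) u ∨ labK C u = .C 0)) := by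
  unfold botsB at h
  rw [Bool.and_eq_true] at h
  obtain ⟨h6, h7⟩ := h
  constructor
  · intro ht
    rw [decN_C0] at ht
    rw [bif_true, Bool.or_eq_true, botN_iff, nbeq_true] at h6
    have h := h6.1 ht
    rw [Bool.and_eq_true, Bool.and_eq_true, redB_iff, nbeq_true, nbeq_true] at h
    exact ⟨h.1.1, h.1.2, decN_C5.mpr h.2⟩
  · intro hb
    rw [decN_C5] at hb
    rw [bif_true, nbeq_true] at h7
    have h := h7.1 hb
    rw [Bool.and_eq_true, Bool.and_eq_true, ble_true, ble_true, Bool.or_eq_true, nbeq_true] at h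
    obtain ⟨⟨k1, k1'⟩, k2⟩ := h
    refine ⟨⟨e.e1, e.e2, e.e3 - 1, e.e4 - 1, e.e5⟩, ?_, ?_⟩
    · unfold x34
      obtain ⟨e1, e2, e3, e4, e5⟩ := e
      change 1 ≤ e3 at k1
      change 1 ≤ e4 at k1'
      change (⟨e1, e2, e3, e4, e5⟩ : Mon) = ⟨e1, e2, e3 - 1 + 1, e4 - 1 + 1, e5⟩
      rw [Nat.sub_add_cancel k1, Nat.sub_add_cancel k1']
    · rcases k2 with k | k
      · left
        exact (botN_iff _ ⟨e.e1, e.e2, e.e3 - 1, e.e4 - 1, e.e5⟩).mp k
      · right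
        exact decN_C0.mpr k

theorem zones_imp (C : ℕ → ℕ → ℕ → ℕ → ℕ → ℕ) (l : ℕ) (e : Mon) (hl : labK C e = decN l)
    (h : zonesB l e.e1 e.e2 e.e3 e.e4 e.e5 = true) : ZoneOK (labK C) e := by
  unfold zonesB at h
  simp only [Bool.and_eq_true] at h
  obtain ⟨⟨⟨⟨h8, h9⟩, h10⟩, h11⟩, h12⟩ := h
  refine ⟨?_, ?_, ?_, ?_, ?_⟩
  · -- okE
    intro hz
    unfold zE at hz
    rw [bif_true, ble_true, ble_true] at h8
    rw [hl]
    exact ⟨_, decN_C (h8.1 hz)⟩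
  · -- okD
    intro hz
    unfold zD at hz
    rw [bif_true, ble_true, Bool.and_eq_true, ble_true, ble_true] at h9
    obtain ⟨k1, k2⟩ := h9.1 hz
    rw [hl]
    exact ⟨_, decN_B k1 (by omega)⟩
  · -- ok2
    intro hz
    unfold z2 at hz
    rw [bif_true, Bool.and_eq_true, ble_true, ble_true, Bool.or_eq_true, Bool.and_eq_true,
      Bool.and_eq_true, Bool.not_eq_true', ← Bool.not_eq_true, topN_iff, ble_true, ble_true,
      blt_true] at h10
    rw [hl]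
    rcases h10.1 hz with k | ⟨⟨k1, k2⟩, k3⟩
    · left; exact ⟨_, decN_C k⟩
    · right
      rw [decN_L k1 k2] at k3 ⊢
      exact ⟨_, rfl, k3⟩
  · -- ok3
    intro hz
    unfold z3 at hz
    rw [bif_true, Bool.and_eq_true, ble_true, ble_true, Bool.or_eq_true, Bool.and_eq_true,
      Bool.and_eq_true, Bool.and_eq_true, Bool.not_eq_true', ← Bool.not_eq_true, botN_iff,
      ble_true, ble_true, ble_true, blt_true] at h11
    rw [hl]
    rcases h11.1 hz with ⟨k1, k2⟩ | ⟨⟨k1, k2⟩, k3⟩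
    · left; exact ⟨_, decN_B k1 (by omega)⟩
    · right
      rw [decN_L k1 k2] at k3 ⊢
      exact ⟨_, rfl, k3⟩
  · -- okS
    intro hz c hc
    unfold zS at hz
    rw [bif_true, Bool.and_eq_true, ble_true, ble_true, Bool.not_eq_true', ← Bool.not_eq_true,
      Bool.and_eq_true, ble_true, blt_true] at h12
    have h := h12.1 hz
    rw [hl] at hc
    rcases decN_cases l with ⟨k1, k⟩ | ⟨k1, k2, k⟩ | ⟨k1, k2, k⟩ | ⟨k1, k⟩
    · rw [k] at hc; cases hc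
    · exact h ⟨k1, k2⟩
    · rw [k] at hc; cases hc
    · rw [k] at hc; cases hc

theorem chkB_sound (C D : ℕ → ℕ → ℕ → ℕ → ℕ → ℕ) (e : Mon)
    (h : chkB C D (C e.e1 e.e2 e.e3 e.e4 e.e5 / 8) (C e.e1 e.e2 e.e3 e.e4 e.e5 % 8)
      e.e1 e.e2 e.e3 e.e4 e.e5 = true) :
    LocB (labK C) (moOf C) (labK D) e ∧ ZoneOK (labK C) e := by
  have hl : labK C e = decN (C e.e1 e.e2 e.e3 e.e4 e.e5 / 8) := rfl
  have hm : moOf C e = C e.e1 e.e2 e.e3 e.e4 e.e5 % 8 := rfl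
  generalize C e.e1 e.e2 e.e3 e.e4 e.e5 / 8 = l at h hl
  generalize C e.e1 e.e2 e.e3 e.e4 e.e5 % 8 = m at h hm
  unfold chkB at h
  simp only [Bool.and_eq_true] at h
  obtain ⟨⟨⟨⟨h1, h2⟩, h3⟩, h4⟩, h5⟩ := h
  obtain ⟨q1, q2, q3⟩ := preds_imp C _ e h3
  obtain ⟨q4, q5⟩ := bots_imp C l e h4
  rw [bif_true, nbeq_true, nbeq_false] at h2
  refine ⟨⟨?_, ?_, ?_, q2, ?_, ?_, ?_, ?_⟩, zones_imp C l e hl h5⟩
  · rw [hl]; exact rangeN_imp l e h1
  · intro hmo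
    rw [hm] at hmo ⊢
    have h := h2.2 hmo
    simp only [Bool.and_eq_true, Bool.not_eq_true', ← Bool.not_eq_true, nbeq_true] at h
    obtain ⟨⟨n1, n2⟩, n3⟩ := h
    obtain ⟨f, f1, f2, f3⟩ := stepN_imp C l m e n1 n3
    rw [hl]
    exact ⟨f, f1, f2, f3, fun q => n2 (decN_C5.mp q)⟩
  · intro hn
    rw [hl, beg_iff, Bool.not_eq_true] at hn
    exact q1 hn
  · intro hs
    rw [hl, beg_iff] at hs
    exact q3 hs
  · rintro ⟨t1, t2⟩
    rw [hm] at t1
    rw [hl, Ne, decN_C5] at t2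
    have h := h2.1 t1
    rw [Bool.or_eq_true, nbeq_true] at h
    rcases h with h | h
    · exact absurd h t2
    rw [Bool.and_eq_true, redB_iff] at h
    obtain ⟨r1, r2⟩ := h
    simp only [Bool.and_eq_true, ble_true, nbeq_true] at r2
    obtain ⟨⟨⟨s1, s2⟩, s3⟩, s4⟩ := r2
    refine ⟨r1, C (e.e1 + 1) e.e2 e.e3 e.e4 e.e5 / 8 - 48, by omega, ?_, ?_, ?_⟩
    · rw [hl]; exact off_imp l _ e s1 s2 s4
    · show decN (C (e.e1 + 1) e.e2 e.e3 e.e4 e.e5 / 8) = _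
      exact decN_B s1 (by omega)
    · show decN (D (e.e1 + 1) e.e2 e.e3 e.e4 e.e5 / 8) = _
      rw [s3]
      exact decN_B s1 (by omega)
  · rw [hl]; exact q4
  · rw [hl]; exact q5

theorem chkC_sound (C D : ℕ → ℕ → ℕ → ℕ → ℕ → ℕ) (e : Mon)
    (h : chkC C D (D e.e1 e.e2 e.e3 e.e4 e.e5 / 8) (D e.e1 e.e2 e.e3 e.e4 e.e5 % 8)
      e.e1 e.e2 e.e3 e.e4 e.e5 = true) :
    LocC (labK C) (moOf C) (labK D) (moOf D) e ∧ ZoneOK (labK D) e := by
  have hl : labK D e = decN (D e.e1 e.e2 e.e3 e.e4 e.e5 / 8) := rfl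
  have hm : moOf D e = D e.e1 e.e2 e.e3 e.e4 e.e5 % 8 := rfl
  generalize D e.e1 e.e2 e.e3 e.e4 e.e5 / 8 = l at h hl
  generalize D e.e1 e.e2 e.e3 e.e4 e.e5 % 8 = m at h hm
  unfold chkC at h
  simp only [Bool.and_eq_true] at h
  obtain ⟨⟨⟨⟨h1, h2⟩, h3⟩, h4⟩, h5⟩ := h
  obtain ⟨q1, q2, q3⟩ := preds_imp D _ e h3
  obtain ⟨q4, q5⟩ := bots_imp D l e h4
  rw [bif_true, nbeq_true, nbeq_false] at h2
  refine ⟨⟨?_, ?_, ?_, ?_, q2, ?_, ?_, ?_⟩, zones_imp D l e hl h5⟩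
  · rw [hl]; exact rangeN_imp l e h1
  · intro hmo
    rw [hm] at hmo ⊢
    have h := h2.2 hmo
    simp only [Bool.and_eq_true, Bool.not_eq_true', ← Bool.not_eq_true, topN_iff, nbeq_true] at h
    obtain ⟨⟨⟨⟨n1, n2⟩, n3⟩, n4⟩, n5⟩ := h
    obtain ⟨f, f1, f2, f3⟩ := stepN_imp D l m e n3 n5
    rw [hl]
    exact ⟨f, f1, f2, f3, n1, fun q => n2 (decN_B6.mp q), fun q => n4 (decN_C5.mp q)⟩
  · intro hmo
    rw [hm] at hmo
    have h := h2.1 hmo
    rw [Bool.or_eq_true, Bool.or_eq_true, topN_iff, nbeq_true, nbeq_true] at h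
    rw [hl, decN_B6, decN_C5, ← or_assoc]
    exact h
  · intro hn
    rw [hl, beg_iff, Bool.not_eq_true] at hn
    exact q1 hn
  · intro hs
    rw [hl, beg_iff] at hs
    exact q3 hs
  · rw [hl]; exact q4
  · rw [hl]; exact q5

theorem chk2_sound (C D : ℕ → ℕ → ℕ → ℕ → ℕ → ℕ) (e : Mon)
    (h : chk2 C D e.e1 e.e2 e.e3 e.e4 e.e5 = true) :
    AllOK (labK C) (moOf C) (labK D) (moOf D) e := by
  unfold chk2 at h
  rw [Bool.and_eq_true] at h
  obtain ⟨h1, h2⟩ := chkB_sound C D e h.1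
  obtain ⟨h3, h4⟩ := chkC_sound C D e h.2
  exact ⟨⟨h1, h3⟩, h2, h4⟩

end Pool.LB
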