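import Pool.Agent.Helper43.LB.Loc
import Pool.Agent.Helper43.LB.WinBase

/-!
# Project LB: extension of the local conditions from the window
-/

set_option autoImplicit false
set_option linter.unusedSimpArgs false

namespace Pool.LB

open Pool.LS

/-- The state at `f` is the state at `f0`, and the two monomials are reduced at the same time. -/
structure Sim2 (lab : Mon → LLab) (mo : Mon → ℕ) (labC : Mon → LLab) (moC : Mon → ℕ)
    (f0 f : Mon) : Prop where
  red : Red 2 2 f ↔ Red 2 2 f0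
  lab : Red 2 2 f0 → lab f = lab f0
  mo : Red 2 2 f0 → mo f = mo f0
  labC : Red 2 2 f0 → labC f = labC f0
  moC : Red 2 2 f0 → moC f = moC f0

/-- The comparisons with the level for the label `l` are the same at `f0` and `f`. -/
structure Lev (l : LLab) (f0 f : Mon) : Prop where
  top : isTopA l f ↔ isTopA l f0
  bot : isBotA l f ↔ isBotA l f0
  range : rangeN l f
  off : ∀ j, OffN l f0 j → OffN l f j

/-- All the hypotheses of the transport from `e0` to `e0.add v`. -/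
structure Sh (lab : Mon → LLab) (mo : Mon → ℕ) (labC : Mon → LLab) (moC : Mon → ℕ)
    (v e0 : Mon) : Prop where
  hr : Red 2 2 e0
  h4 : v.e4 = 0
  q1 : v.e1 = 0 ∨ 1 ≤ e0.e1
  hF : ∀ k, mvF k (e0.add v) = (mvF k e0).map (fun f => f.add v)
  hB : ∀ k, mvB k (e0.add v) = (mvB k e0).map (fun f => f.add v)
  sE : Sim2 lab mo labC moC e0 (e0.add v)
  sF : ∀ k f0, mvF k e0 = some f0 → Sim2 lab mo labC moC f0 (f0.add v)
  sB : ∀ k f0, mvB k e0 = some f0 → Sim2 lab mo labC moC f0 (f0.add v)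
  s1 : Sim2 lab mo labC moC (x1 e0) ((x1 e0).add v)
  s34 : Sim2 lab mo labC moC (x34 e0) ((x34 e0).add v)
  st : ∀ t0, e0 = x1 t0 → Sim2 lab mo labC moC t0 (t0.add v)
  su : ∀ u0, e0 = x34 u0 → Sim2 lab mo labC moC u0 (u0.add v) ∧
    Lev (lab u0) u0 (u0.add v) ∧ Lev (labC u0) u0 (u0.add v)
  lB : Lev (lab e0) e0 (e0.add v)
  lC : Lev (labC e0) e0 (e0.add v)

section
variable {lab : Mon → LLab} {mo : Mon → ℕ} {labC : Mon → LLab} {moC : Mon → ℕ} {v e0 : Mon}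
  (s : Sh lab mo labC moC v e0)
include s

theorem pred_iff (k : ℕ) : Pred mo k (e0.add v) ↔ Pred mo k e0 := by
  constructor
  · rintro ⟨g, hg, hgr, hgm⟩
    rw [s.hB k] at hg
    cases hgo : mvB k e0 with
    | none => rw [hgo] at hg; simp at hg
    | some g0 =>
      rw [hgo] at hg
      simp only [Option.map_some, Option.some.injEq] at hg
      subst hg
      have S := s.sB k g0 hgo
      have r0 := S.red.1 hgr
      exact ⟨g0, hgo, r0, by rw [← S.mo r0]; exact hgm⟩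
  · rintro ⟨g0, hg, hgr, hgm⟩
    have S := s.sB k g0 hg
    exact ⟨g0.add v, by rw [s.hB k, hg]; rfl, S.red.2 hgr, by rw [S.mo hgr]; exact hgm⟩

theorem predC_iff (k : ℕ) : Pred moC k (e0.add v) ↔ Pred moC k e0 := by
  constructor
  · rintro ⟨g, hg, hgr, hgm⟩
    rw [s.hB k] at hg
    cases hgo : mvB k e0 with
    | none => rw [hgo] at hg; simp at hg
    | some g0 =>
      rw [hgo] at hg
      simp only [Option.map_some, Option.some.injEq] at hg
      subst hg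
      have S := s.sB k g0 hgo
      have r0 := S.red.1 hgr
      exact ⟨g0, hgo, r0, by rw [← S.moC r0]; exact hgm⟩
  · rintro ⟨g0, hg, hgr, hgm⟩
    have S := s.sB k g0 hg
    exact ⟨g0.add v, by rw [s.hB k, hg]; rfl, S.red.2 hgr, by rw [S.moC hgr]; exact hgm⟩

theorem isSt_iff : IsSt lab mo (e0.add v) ↔ IsSt lab mo e0 := by
  constructor
  · rintro ⟨t, ht, h1, h2⟩
    have hq := s.q1
    have ht0 : e0 = x1 ⟨e0.e1 - 1, e0.e2, e0.e3, e0.e4, e0.e5⟩ := by
      have h3 : e0.e1 + v.e1 = t.e1 + 1 := congrArg Mon.e1 ht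
      have h4 : e0.e1 - 1 + 1 = e0.e1 := by omega
      show e0 = ⟨e0.e1 - 1 + 1, e0.e2, e0.e3, e0.e4, e0.e5⟩
      rw [h4]
    have S := s.st _ ht0
    have r0 : Red 2 2 (⟨e0.e1 - 1, e0.e2, e0.e3, e0.e4, e0.e5⟩ : Mon) := by
      have := s.hr
      simp only [Red] at *
      omega
    have e1 : (⟨e0.e1 - 1, e0.e2, e0.e3, e0.e4, e0.e5⟩ : Mon).add v = t := by
      have h3 : x1 ((⟨e0.e1 - 1, e0.e2, e0.e3, e0.e4, e0.e5⟩ : Mon).add v) = x1 t := by
        rw [← add_x1, ← ht0, ht]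
      simp only [x1, Mon.mk.injEq] at h3
      obtain ⟨b1, b2, b3, b4, b5⟩ := t
      simp only [Mon.add, Mon.mk.injEq] at *
      omega
    rw [e1] at S
    exact ⟨_, ht0, by rw [← S.mo r0]; exact h1, by rw [← S.lab r0]; exact h2⟩
  · rintro ⟨t, ht, h1, h2⟩
    have S := s.st t ht
    have r0 : Red 2 2 t := red_of_x1 (ht ▸ s.hr)
    exact ⟨t.add v, by rw [← add_x1, ← ht], by rw [S.mo r0]; exact h1, by rw [S.lab r0]; exact h2⟩

theorem locB_shift (h : LocB lab mo labC e0) : LocB lab mo labC (e0.add v) := by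
  have hl : lab (e0.add v) = lab e0 := s.sE.lab s.hr
  have hm : mo (e0.add v) = mo e0 := s.sE.mo s.hr
  have hP := pred_iff s
  have hS := isSt_iff s
  refine ⟨?_, ?_, ?_, ?_, ?_, ?_, ?_, ?_⟩
  · rw [hl]; exact s.lB.range
  · intro h0
    rw [hm] at h0
    obtain ⟨f0, h1, h2, h3, h4⟩ := h.step h0
    have S := s.sF _ f0 h1
    refine ⟨f0.add v, ?_, S.red.2 h2, ?_, ?_⟩
    · rw [hm, s.hF, h1]; rfl
    · rw [S.lab h2, hl]; exact h3
    · rw [hl]; exact h4
  · intro h0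
    rw [hl, s.lB.bot, hS] at h0
    obtain ⟨k, hk⟩ := h.pred h0
    exact ⟨k, (hP k).2 hk⟩
  · intro k k' hk hk'
    exact h.predU k k' ((hP k).1 hk) ((hP k').1 hk')
  · intro h0 k hk
    rw [hl, s.lB.bot, hS] at h0
    exact h.start h0 k ((hP k).1 hk)
  · intro h0
    have h0' : IsTp lab mo e0 := ⟨by rw [← hm]; exact h0.1, by rw [← hl]; exact h0.2⟩
    obtain ⟨h1, j, h2, h3, h4, h5⟩ := h.top h0'
    rw [← add_x1]
    exact ⟨s.s1.red.2 h1, j, h2, by rw [hl]; exact s.lB.off j h3, by rw [s.s1.lab h1]; exact h4,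
      by rw [s.s1.labC h1]; exact h5⟩
  · intro h0
    rw [hl, s.lB.bot] at h0
    obtain ⟨h1, h2, h3⟩ := h.bot h0
    rw [← add_x34]
    exact ⟨by simp [Mon.add, h1, s.h4], s.s34.red.2 h2, by rw [s.s34.lab h2]; exact h3⟩
  · intro h0
    rw [hl] at h0
    obtain ⟨u0, h1, h2⟩ := h.botOf h0
    obtain ⟨S, L1, L2⟩ := s.su u0 h1
    have r0 : Red 2 2 u0 := red_of_x34 (h1 ▸ s.hr)
    refine ⟨u0.add v, by rw [← add_x34, ← h1], ?_⟩
    rw [S.lab r0]
    rcases h2 with h2 | h2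
    · exact Or.inl (L1.bot.2 h2)
    · exact Or.inr h2

theorem locC_shift (h : LocC lab mo labC moC e0) : LocC lab mo labC moC (e0.add v) := by
  have hl : labC (e0.add v) = labC e0 := s.sE.labC s.hr
  have hm : moC (e0.add v) = moC e0 := s.sE.moC s.hr
  have hP := predC_iff s
  have hS := isSt_iff s
  refine ⟨?_, ?_, ?_, ?_, ?_, ?_, ?_, ?_⟩
  · rw [hl]; exact s.lC.range
  · intro h0
    rw [hm] at h0
    obtain ⟨f0, h1, h2, h3, h4, h5, h6⟩ := h.step h0
    have S := s.sF _ f0 h1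
    refine ⟨f0.add v, ?_, S.red.2 h2, ?_, ?_, ?_, ?_⟩
    · rw [hm, s.hF, h1]; rfl
    · rw [S.labC h2, hl]; exact h3
    · rw [hl, s.lC.top]; exact h4
    · rw [hl]; exact h5
    · rw [hl]; exact h6
  · intro h0
    rw [hm] at h0
    rw [hl, s.lC.top]
    exact h.stop h0
  · intro h0
    rw [hl, s.lC.bot, hS] at h0
    obtain ⟨k, hk⟩ := h.pred h0
    exact ⟨k, (hP k).2 hk⟩
  · intro k k' hk hk'
    exact h.predU k k' ((hP k).1 hk) ((hP k').1 hk')
  · intro h0 k hk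
    rw [hl, s.lC.bot, hS] at h0
    exact h.start h0 k ((hP k).1 hk)
  · intro h0
    rw [hl, s.lC.bot] at h0
    obtain ⟨h1, h2, h3⟩ := h.bot h0
    rw [← add_x34]
    exact ⟨by simp [Mon.add, h1, s.h4], s.s34.red.2 h2, by rw [s.s34.labC h2]; exact h3⟩
  · intro h0
    rw [hl] at h0
    obtain ⟨u0, h1, h2⟩ := h.botOf h0
    obtain ⟨S, L1, L2⟩ := s.su u0 h1
    have r0 : Red 2 2 u0 := red_of_x34 (h1 ▸ s.hr)
    refine ⟨u0.add v, by rw [← add_x34, ← h1], ?_⟩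
    rw [S.labC r0]
    rcases h2 with h2 | h2
    · exact Or.inl (L2.bot.2 h2)
    · exact Or.inr h2

end

/-- The local conditions and the zone conditions at `e`. -/
def AllOK (lab : Mon → LLab) (mo : Mon → ℕ) (labC : Mon → LLab) (moC : Mon → ℕ) (e : Mon) : Prop :=
  (LocB lab mo labC e ∧ LocC lab mo labC moC e) ∧ ZoneOK lab e ∧ ZoneOK labC e

/-- The local conditions are carried over by the shift `v` in the zone `Z`. -/
theorem loc_zone2 (lab : Mon → LLab) (mo : Mon → ℕ) (labC : Mon → LLab) (moC : Mon → ℕ)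
    (v e0 : Mon) (Z : Mon → Prop)
    (hr : Red 2 2 e0) (h4 : v.e4 = 0) (hv : 1 ≤ deg v)
    (hst : ∀ f, Red 2 2 f → Z f → lab (f.add v) = lab f ∧ mo (f.add v) = mo f ∧
      labC (f.add v) = labC f ∧ moC (f.add v) = moC f)
    (hcore : ∀ (l : Mon → LLab) (f : Mon), Red 2 2 f → Z f → ZoneOK l f → rangeN (l f) f →
      Lev (l f) f (f.add v))
    (hred : ∀ f, Near e0 f → (Red 2 2 (f.add v) ↔ Red 2 2 f))
    (hz : ∀ f, Near e0 f → Red 2 2 f → Z f)
    (q1 : v.e1 = 0 ∨ 1 ≤ e0.e1) (q2 : v.e2 = 0 ∨ 1 ≤ e0.e2) (q3 : v.e3 = 0 ∨ 1 ≤ e0.e3)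
    (q5 : v.e5 = 0 ∨ 1 ≤ e0.e5)
    (ih : ∀ f, deg f < deg (e0.add v) → Red 2 2 f → AllOK lab mo labC moC f) :
    LocB lab mo labC (e0.add v) ∧ LocC lab mo labC moC (e0.add v) := by
  have hdv : deg (e0.add v) = deg e0 + deg v := by simp only [deg, Mon.add]; omega
  have hsim : ∀ f, Near e0 f → Sim2 lab mo labC moC f (f.add v) := by
    intro f hf
    exact ⟨hred f hf, fun hrf => (hst f hrf (hz f hf hrf)).1,
      fun hrf => (hst f hrf (hz f hf hrf)).2.1, fun hrf => (hst f hrf (hz f hf hrf)).2.2.1,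
      fun hrf => (hst f hrf (hz f hf hrf)).2.2.2⟩
  obtain ⟨⟨hL, hLC⟩, hZ, hZC⟩ := ih e0 (by omega) hr
  have s : Sh lab mo labC moC v e0 := by
    refine ⟨hr, h4, q1, mvF_add v e0 q1 q2 q3 (Or.inl h4),
      mvB_add v e0 q2 q3 (Or.inl h4) q5, hsim _ (Or.inl rfl),
      (fun k f0 hf => hsim _ (Or.inr (Or.inl ⟨k, hf⟩))),
      (fun k f0 hf => hsim _ (Or.inr (Or.inr (Or.inl ⟨k, hf⟩)))),
      (hsim _ (Or.inr (Or.inr (Or.inr (Or.inl rfl))))),
      (hsim _ (Or.inr (Or.inr (Or.inr (Or.inr (Or.inl rfl)))))),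
      ?_, ?_, hcore lab e0 hr (hz e0 (Or.inl rfl) hr) hZ hL.range,
      hcore labC e0 hr (hz e0 (Or.inl rfl) hr) hZC hLC.range⟩
    · intro t0 ht0
      exact hsim _ (Or.inr (Or.inr (Or.inr (Or.inr (Or.inr (Or.inl ht0))))))
    · intro t0 ht0
      have hn : Near e0 t0 := Or.inr (Or.inr (Or.inr (Or.inr (Or.inr (Or.inr ht0)))))
      have r0 : Red 2 2 t0 := red_of_x34 (ht0 ▸ hr)
      have hd0 : deg t0 < deg (e0.add v) := by
        rw [hdv, ht0]; simp only [deg, x34]; omega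
      obtain ⟨⟨hL0, hL0C⟩, hZ0, hZ0C⟩ := ih t0 hd0 r0
      exact ⟨hsim _ hn, hcore lab t0 r0 (hz t0 hn r0) hZ0 hL0.range,
        hcore labC t0 r0 (hz t0 hn r0) hZ0C hL0C.range⟩
  exact ⟨locB_shift s hL, locC_shift s hLC⟩

theorem lev2 (l : Mon → LLab) (f : Mon) (hz : z2 f) (hZ : ZoneOK l f) (hR : rangeN (l f) f) :
    Lev (l f) f (f.add v2) := by
  rcases hZ.ok2 hz with ⟨j, hj⟩ | ⟨c, hc, hn⟩
  · rw [hj] at hR ⊢; exact ⟨Iff.rfl, Iff.rfl, hR, fun _ h => h⟩
  · rw [hc] at hR ⊢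
    refine ⟨?_, ?_, ?_, ?_⟩
    · simp only [isTopA, isBotA, rangeN, OffN, up, dn, deg, Mon.add, v2] at *
      omega
    · simp only [isTopA, isBotA, rangeN, OffN, up, dn, deg, Mon.add, v2] at *
      omega
    · simp only [isTopA, isBotA, rangeN, OffN, up, dn, deg, Mon.add, v2] at *
      omega
    · intro j h
      exact absurd h.2 hn

theorem lev3 (l : Mon → LLab) (f : Mon) (hz : z3 f) (hZ : ZoneOK l f) (hR : rangeN (l f) f) :
    Lev (l f) f (f.add v3) := by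
  rcases hZ.ok3 hz with ⟨j, hj⟩ | ⟨c, hc, hn⟩
  · rw [hj] at hR ⊢
    refine ⟨Iff.rfl, Iff.rfl, hR, fun _ h => h⟩
  · rw [hc] at hR ⊢
    refine ⟨?_, ?_, ?_, ?_⟩
    · simp only [isTopA, isBotA, rangeN, OffN, up, dn, deg, Mon.add, v3] at *
      omega
    · simp only [isTopA, isBotA, rangeN, OffN, up, dn, deg, Mon.add, v3] at *
      omega
    · simp only [isTopA, isBotA, rangeN, OffN, up, dn, deg, Mon.add, v3] at *
      omega
    · intro j h
      simp only [isTopA, isBotA, rangeN, OffN, up, dn, deg, Mon.add, v3] at *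
      omega

theorem levE (l : Mon → LLab) (f : Mon) (hz : zE f) (hZ : ZoneOK l f) (hR : rangeN (l f) f) :
    Lev (l f) f (f.add vE) := by
  obtain ⟨j, hj⟩ := hZ.okE hz
  rw [hj] at hR ⊢; exact ⟨Iff.rfl, Iff.rfl, hR, fun _ h => h⟩

theorem levD (l : Mon → LLab) (f : Mon) (hz : zD f) (hZ : ZoneOK l f) (hR : rangeN (l f) f) :
    Lev (l f) f (f.add vD) := by
  obtain ⟨j, hj⟩ := hZ.okD hz
  rw [hj] at hR ⊢; exact ⟨Iff.rfl, Iff.rfl, hR, fun _ h => h⟩

theorem levS (l : Mon → LLab) (f : Mon) (hz : zS f) (hZ : ZoneOK l f) (hR : rangeN (l f) f) :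
    Lev (l f) f (f.add vS) := by
  have h5 := hZ.okS hz
  cases hl : l f with
  | A o =>
    refine ⟨?_, ?_, trivial, ?_⟩
    · simp only [isTopA, up, dn, Mon.add, vS] at *
      omega
    · simp only [isBotA, up, dn, Mon.add, vS] at *
      omega
    · intro j h
      simp only [OffN, up, dn, Mon.add, vS] at *
      omega
  | L c => exact absurd hl (h5 c)
  | B j => rw [hl] at hR; exact ⟨Iff.rfl, Iff.rfl, hR, fun _ h => h⟩
  | C j => rw [hl] at hR; exact ⟨Iff.rfl, Iff.rfl, hR, fun _ h => h⟩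

end Pool.LB
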